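import Pool.Agent.Helper61.GS.Gd

set_option autoImplicit false

/-!
# The Riemann hypothesis and the nontrivial zeros
-/

namespace Pool.Agent.Helper61.W.GS

open Complex
open Pool.Agent.V11271.LI (Zr mm zz)

lemma rh_iff : RiemannHypothesis ↔ ∀ ρ : Zr, (zz ρ).re = 0 := by
  constructor
  · intro h ρ
    have h1 : (ρ : ℂ).re = 1 / 2 := by
      refine h ρ ρ.2.1 ?_ ρ.ne_one
      rintro ⟨n, hn⟩
      have h2 := ρ.2.2.1
      rw [hn] at h2
      simp at h2
      have : (0 : ℝ) ≤ n := Nat.cast_nonneg n
      linarith
    rw [V11271.LI.zz_re, h1]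
    norm_num
  · intro h s hs htriv hs1
    rcases le_or_gt s.re 0 with h1 | h1
    · -- a zero with nonpositive real part is trivial
      exfalso
      have hs0 : s ≠ 0 := by
        intro h0
        rw [h0, riemannZeta_zero] at hs
        norm_num at hs
      have hre : 1 ≤ (1 - s).re := by simp; linarith
      have hne : riemannZeta (1 - s) ≠ 0 := riemannZeta_ne_zero_of_one_le_re hre
      have h1s : (1 - s) ≠ 0 := by
        intro h0
        rw [h0] at hre
        simp at hre
        linarith
      have e1 := riemannZeta_def_of_ne_zero hs0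
      have e2 := riemannZeta_def_of_ne_zero h1s
      rw [hs] at e1
      rw [completedRiemannZeta_one_sub] at e2
      have hc : completedRiemannZeta s ≠ 0 := by
        intro h0
        rw [h0, zero_div] at e2
        exact hne e2
      have hG : Gammaℝ s = 0 := by
        by_contra hG
        exact (div_ne_zero hc hG) e1.symm
      rw [Gammaℝ_eq_zero_iff] at hG
      obtain ⟨n, hn⟩ := hG
      rcases Nat.eq_zero_or_pos n with h0 | h0
      · rw [h0] at hn
        simp at hn
        exact hs0 hn
      · apply htriv
        refine ⟨n - 1, ?_⟩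
        rw [hn]
        have : ((n - 1 : ℕ) : ℂ) + 1 = n := by
          have h2 : n - 1 + 1 = n := by omega
          exact_mod_cast h2
        rw [this]
        ring
    · have h2 : s.re < 1 := by
        by_contra h3
        push Not at h3
        exact riemannZeta_ne_zero_of_one_le_re h3 hs
      have h3 := h ⟨s, hs, h1, h2⟩
      rw [V11271.LI.zz_re] at h3
      show s.re = 1 / 2
      have : ((⟨s, hs, h1, h2⟩ : Zr) : ℂ).re = s.re := rfl
      rw [this] at h3
      linarith

end Pool.Agent.Helper61.W.GS
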