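import Pool.Agent.Helper61.GS.Lb

set_option autoImplicit false

/-!
# Compactness
-/

namespace Pool.Agent.Helper61.W.GS

open Filter Topology Set MeasureTheory Polynomial
open scoped ComplexConjugate ContDiff
open Pool.Agent.V11271.LI (Zr mm cfg_zeta zz)

variable {a : ℝ} {g : ℝ → ℂ}

/-- the Hilbert space of square integrable functions -/
abbrev HL : Type := Lp ℂ 2 (volume : Measure ℝ)

lemma Ts.memLp (hg : g ∈ Ts a) : MemLp g 2 (volume : Measure ℝ) :=
  (Ts.tf hg).cont.memLp_of_hasCompactSupport (Ts.tf hg).supp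

/-- the test functions as elements of the Hilbert space -/
noncomputable def toL (a : ℝ) : Ts a →ₗ[ℂ] HL where
  toFun g := (Ts.memLp g.2).toLp (g : ℝ → ℂ)
  map_add' f g := MemLp.toLp_add (Ts.memLp f.2) (Ts.memLp g.2)
  map_smul' c g := MemLp.toLp_const_smul c (Ts.memLp g.2)

lemma norm_toLp_sq {f : ℝ → ℂ} (hf : MemLp f 2 (volume : Measure ℝ)) :
    ‖hf.toLp f‖ ^ 2 = ∫ x, ‖f x‖ ^ 2 := by
  have h1 : inner ℂ (hf.toLp f) (hf.toLp f) = ((‖hf.toLp f‖ ^ 2 : ℝ) : ℂ) := by
    rw [inner_self_eq_norm_sq_to_K]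
    norm_cast
  rw [L2.inner_def] at h1
  have h2 : ∫ x, inner ℂ ((hf.toLp f : ℝ → ℂ) x) ((hf.toLp f : ℝ → ℂ) x) = ((∫ x, ‖f x‖ ^ 2 : ℝ) : ℂ) := by
    rw [← integral_complex_ofReal]
    apply integral_congr_ae
    filter_upwards [hf.coeFn_toLp] with x hx
    rw [hx, inner_self_eq_norm_sq_to_K]
    norm_cast
  rw [h2] at h1
  exact_mod_cast h1.symm

lemma norm_toL (g : Ts a) : ‖toL a g‖ ^ 2 = ∫ x, ‖(g : ℝ → ℂ) x‖ ^ 2 := norm_toLp_sq (Ts.memLp g.2)

/-- a continuous function cut off -/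
noncomputable def ct (a : ℝ) (f : ℝ → ℂ) : ℝ → ℂ := indicator (Icc (-a) a) f

lemma ct_memLp (a : ℝ) {f : ℝ → ℂ} (hf : Continuous f) : MemLp (ct a f) 2 (volume : Measure ℝ) := by
  unfold ct
  rw [memLp_indicator_iff_restrict measurableSet_Icc]
  obtain ⟨C, hC⟩ := isCompact_Icc.exists_bound_of_continuousOn (s := Icc (-a) a) hf.continuousOn
  apply MemLp.of_bound hf.aestronglyMeasurable C
  rw [ae_restrict_iff' measurableSet_Icc]
  exact Eventually.of_forall hC

/-- monomials on the interval -/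
noncomputable def ej (a : ℝ) (j : ℕ) : HL :=
  (ct_memLp a (f := fun x : ℝ => ((x / a : ℝ) : ℂ) ^ j) (by fun_prop)).toLp
    (ct a (fun x : ℝ => ((x / a : ℝ) : ℂ) ^ j))

/-- polynomials on the interval -/
noncomputable def PN (a : ℝ) (N : ℕ) : Submodule ℂ HL := Submodule.span ℂ (range fun j : Fin N => ej a j)

instance (N : ℕ) : FiniteDimensional ℂ (PN a N) := by
  unfold PN
  exact FiniteDimensional.span_of_finite ℂ (finite_range _)

/-- a pair of real polynomials as a complex function -/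
noncomputable def cq (a : ℝ) (p q : ℝ[X]) (x : ℝ) : ℂ := ⟨p.eval (x / a), q.eval (x / a)⟩

lemma cq_cont (p q : ℝ[X]) : Continuous (cq a p q) := by
  have : cq a p q = fun x => ((p.eval (x / a) : ℝ) : ℂ) + ((q.eval (x / a) : ℝ) : ℂ) * Complex.I := by
    funext x
    apply Complex.ext <;> simp [cq]
  rw [this]
  have h1 : Continuous fun x : ℝ => p.eval (x / a) := p.continuous.comp (by fun_prop)
  have h2 : Continuous fun x : ℝ => q.eval (x / a) := q.continuous.comp (by fun_prop)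
  fun_prop

/-- the same as an element of the Hilbert space -/
noncomputable def cqL (a : ℝ) (p q : ℝ[X]) : HL :=
  (ct_memLp a (cq_cont (a := a) p q)).toLp (ct a (cq a p q))

lemma cq_mem {N : ℕ} {p q : ℝ[X]} (hp : p ∈ degreeLT ℝ N) (hq : q ∈ degreeLT ℝ N) :
    cqL a p q ∈ PN a N := by
  have h1 : cqL a p q =
      ∑ j : Fin N, (⟨p.coeff j, q.coeff j⟩ : ℂ) • ej a j := by
    apply Lp.ext
    have h2 : ∀ j : Fin N, (ej a j : ℝ → ℂ) =ᵐ[volume] ct a (fun x : ℝ => ((x / a : ℝ) : ℂ) ^ (j : ℕ)) :=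
      fun j => MemLp.coeFn_toLp _
    have h2' := ae_all_iff.mpr h2
    have h3 : ∀ s : Finset (Fin N), (((∑ j ∈ s, (⟨p.coeff j, q.coeff j⟩ : ℂ) • ej a j : HL)) : ℝ → ℂ)
        =ᵐ[volume] fun x => ∑ j ∈ s, (⟨p.coeff j, q.coeff j⟩ : ℂ) * (ej a j : ℝ → ℂ) x := by
      intro s
      induction s using Finset.induction_on with
      | empty =>
        simp only [Finset.sum_empty]
        exact Lp.coeFn_zero _ _ _
      | insert j s hj ih =>
        rw [Finset.sum_insert hj]
        filter_upwards [Lp.coeFn_add ((⟨p.coeff j, q.coeff j⟩ : ℂ) • ej a j)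
          (∑ j ∈ s, (⟨p.coeff j, q.coeff j⟩ : ℂ) • ej a j), ih,
          Lp.coeFn_smul (⟨p.coeff j, q.coeff j⟩ : ℂ) (ej a j)] with x h4 h5 h6
        rw [h4, Pi.add_apply, h5, h6, Finset.sum_insert hj]
        rfl
    filter_upwards [h3 Finset.univ, h2', MemLp.coeFn_toLp (ct_memLp a (cq_cont (a := a) p q))] with x h4 h5 h6
    unfold cqL
    rw [h6, h4]
    simp_rw [h5]
    unfold ct
    by_cases hx : x ∈ Icc (-a) a
    · simp only [indicator_of_mem hx]
      have hd : ∀ r : ℝ[X], r ∈ degreeLT ℝ N → r.eval (x / a) = ∑ j : Fin N, r.coeff j * (x / a) ^ (j : ℕ) := by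
        intro r hr
        rcases Nat.eq_zero_or_pos N with h0 | h0
        · subst h0
          rw [mem_degreeLT] at hr
          have : r = 0 := by
            by_contra hne
            have := degree_eq_natDegree hne
            rw [this] at hr
            have h7 : (r.natDegree : WithBot ℕ) < (0 : ℕ) := hr
            exact absurd (Nat.cast_lt.mp h7) (Nat.not_lt_zero _)
          subst this
          simp
        · have h7 : r.natDegree < N := by
            rw [mem_degreeLT] at hr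
            rcases eq_or_ne r 0 with h | h
            · subst h
              simpa using h0
            · exact (natDegree_lt_iff_degree_lt h).mpr hr
          rw [eval_eq_sum_range' h7, Finset.sum_range]
      apply Complex.ext
      · simp only [cq, Complex.re_sum, Complex.mul_re]
        rw [hd p hp]
        apply Finset.sum_congr rfl
        intro j _
        have e : (((x / a : ℝ) : ℂ) ^ (j : ℕ)) = (((x / a) ^ (j : ℕ) : ℝ) : ℂ) := by push_cast; rfl
        rw [e, Complex.ofReal_re, Complex.ofReal_im]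
        ring
      · simp only [cq, Complex.im_sum, Complex.mul_im]
        rw [hd q hq]
        apply Finset.sum_congr rfl
        intro j _
        have e : (((x / a : ℝ) : ℂ) ^ (j : ℕ)) = (((x / a) ^ (j : ℕ) : ℝ) : ℂ) := by push_cast; rfl
        rw [e, Complex.ofReal_re, Complex.ofReal_im]
        ring
    · simp only [indicator_of_notMem hx, mul_zero, Finset.sum_const_zero]
  rw [h1]
  exact Submodule.sum_mem _ fun j _ => Submodule.smul_mem _ _ (Submodule.subset_span ⟨j, rfl⟩)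

lemma dist_cq (ha : 0 < a) (g : Ts a) (p q : ℝ[X]) :
    ‖toL a g - cqL a p q‖ ^ 2 =
      a * (ip (fun s => (sc a g s).re - p.eval s) (fun s => (sc a g s).re - p.eval s) +
        ip (fun s => (sc a g s).im - q.eval s) (fun s => (sc a g s).im - q.eval s)) := by
  have h1 : toL a g - cqL a p q =
      ((Ts.memLp g.2).sub (ct_memLp a (cq_cont (a := a) p q))).toLp ((g : ℝ → ℂ) - ct a (cq a p q)) :=
    (MemLp.toLp_sub (Ts.memLp g.2) (ct_memLp a (cq_cont (a := a) p q))).symm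
  rw [h1, norm_toLp_sq]
  have e1 := Measure.integral_comp_mul_left
    (fun x => ‖((g : ℝ → ℂ) - ct a (cq a p q)) x‖ ^ 2) a
  rw [abs_of_pos (inv_pos.mpr ha), smul_eq_mul] at e1
  have e2 : ∫ x, ‖((g : ℝ → ℂ) - ct a (cq a p q)) x‖ ^ 2 =
      a * ∫ s, ‖((g : ℝ → ℂ) - ct a (cq a p q)) (a * s)‖ ^ 2 := by
    rw [e1, ← mul_assoc, mul_inv_cancel₀ ha.ne', one_mul]
  rw [e2]
  congr 1
  have e3 : ∫ s, ‖((g : ℝ → ℂ) - ct a (cq a p q)) (a * s)‖ ^ 2 =
      ∫ s, ‖((g : ℝ → ℂ) - ct a (cq a p q)) (a * s)‖ ^ 2 ∂mu1 := by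
    unfold mu1
    rw [setIntegral_eq_integral_of_forall_compl_eq_zero]
    intro s hs
    have h2 : 1 < |s| := by
      by_contra hlt
      push Not at hlt
      exact hs ⟨(abs_le.mp hlt).1, (abs_le.mp hlt).2⟩
    have h3 : a < |a * s| := by
      rw [abs_mul, abs_of_pos ha]
      nlinarith
    have h4 : a * s ∉ Icc (-a) a := fun hm => by
      have := abs_le.mpr ⟨hm.1, hm.2⟩
      linarith
    simp only [Pi.sub_apply]
    rw [g.2.2 _ h3, ct, indicator_of_notMem h4]
    simp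
  obtain ⟨t1, t2⟩ := sc_T1 ha g.2
  have c1 := t1.cont
  have c2 := t2.cont
  have i1 : Integrable (fun s => ((sc a g s).re - p.eval s) * ((sc a g s).re - p.eval s)) mu1 :=
    integrable_cont (by fun_prop)
  have i2 : Integrable (fun s => ((sc a g s).im - q.eval s) * ((sc a g s).im - q.eval s)) mu1 :=
    integrable_cont (by fun_prop)
  rw [e3]
  unfold ip
  rw [← integral_add i1 i2]
  apply integral_congr_ae
  filter_upwards [ae_mem] with s hs
  have h4 : a * s ∈ Icc (-a) a := ⟨by nlinarith [hs.1], by nlinarith [hs.2]⟩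
  simp only [Pi.sub_apply]
  rw [ct, indicator_of_mem h4, ← Complex.normSq_eq_norm_sq, Complex.normSq_apply]
  unfold cq sc
  have e5 : a * s / a = s := by field_simp
  simp only [e5, Complex.sub_re, Complex.sub_im]

lemma Hn_atTop : Tendsto Hn atTop atTop := by
  have := Real.tendsto_sum_range_one_div_nat_succ_atTop
  unfold Hn
  exact this

/-- approximation by polynomials -/
lemma approx (ha : 0 < a) : ∃ C : ℝ, 0 ≤ C ∧ ∀ (g : Ts a) (N : ℕ), ∃ Q ∈ PN a N,
    Hn N * ‖toL a g - Q‖ ^ 2 ≤ (Wf g g).re + C * ‖toL a g‖ ^ 2 := by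
  obtain ⟨C, hC, h⟩ := weil_lower ha
  refine ⟨C, hC, fun g N => ?_⟩
  obtain ⟨p, hp, q, hq, hle⟩ := h g g.2 N
  refine ⟨_, cq_mem hp hq, ?_⟩
  rw [dist_cq ha, norm_toL]
  refine le_trans (le_of_eq ?_) hle
  ring

/-- the form is bounded below -/
lemma bdd_below (ha : 0 < a) : ∃ C : ℝ, 0 ≤ C ∧ ∀ g : Ts a, -(C * ‖toL a g‖ ^ 2) ≤ (Wf g g).re := by
  obtain ⟨C, hC, h⟩ := approx ha
  refine ⟨C, hC, fun g => ?_⟩
  obtain ⟨Q, _, hQ⟩ := h g 0
  have : Hn 0 = 0 := by simp [Hn]
  rw [this, zero_mul] at hQ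
  linarith

theorem seqcomp (ha : 0 < a) (G : ℕ → Ts a) (M : ℝ) (h1 : ∀ n, ‖toL a (G n)‖ ≤ M)
    (h2 : ∀ n, (Wf (G n) (G n)).re ≤ M) : ∃ φ : HL, ∃ ψ : ℕ → ℕ, StrictMono ψ ∧
      Tendsto (fun n => toL a (G (ψ n))) atTop (𝓝 φ) := by
  obtain ⟨C, hC, h⟩ := approx ha
  have hM : 0 ≤ M := (norm_nonneg _).trans (h1 0)
  have htb : TotallyBounded (range fun n => toL a (G n)) := by
    rw [Metric.totallyBounded_iff]
    intro ε hε
    obtain ⟨N, hN⟩ := (Hn_atTop.eventually_gt_atTop ((M + C * M ^ 2) / (ε / 2) ^ 2)).exists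
    have hK : IsCompact ((↑) '' (Metric.closedBall (0 : PN a N) (M + ε)) : Set HL) :=
      (isCompact_closedBall (0 : PN a N) (M + ε)).image continuous_subtype_val
    obtain ⟨t, ht1, ht2⟩ := (Metric.totallyBounded_iff.mp hK.totallyBounded) (ε / 2) (by positivity)
    refine ⟨t, ht1, ?_⟩
    rintro _ ⟨n, rfl⟩
    obtain ⟨Q, hQ, hle⟩ := h (G n) N
    have hH : 0 < Hn N := lt_of_le_of_lt (by positivity) hN
    have h3 : Hn N * ‖toL a (G n) - Q‖ ^ 2 ≤ M + C * M ^ 2 := by
      refine hle.trans (add_le_add (h2 n) ?_)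
      gcongr
      exact h1 n
    have h4 : ‖toL a (G n) - Q‖ ^ 2 < (ε / 2) ^ 2 := by
      rw [div_lt_iff₀ (by positivity)] at hN
      nlinarith
    have h5 : ‖toL a (G n) - Q‖ < ε / 2 := lt_of_pow_lt_pow_left₀ 2 (by positivity) h4
    have h6 : ‖Q‖ ≤ M + ε := by
      have : ‖Q‖ ≤ ‖toL a (G n)‖ + ‖toL a (G n) - Q‖ := by
        have e : Q = toL a (G n) - (toL a (G n) - Q) := by abel
        conv_lhs => rw [e]
        exact norm_sub_le _ _
      linarith [h1 n]
    have h7 : Q ∈ ((↑) '' (Metric.closedBall (0 : PN a N) (M + ε)) : Set HL) :=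
      ⟨⟨Q, hQ⟩, by rw [mem_closedBall_zero_iff]; exact h6, rfl⟩
    have h8 := ht2 h7
    rw [mem_iUnion₂] at h8 ⊢
    obtain ⟨y, hy, hd⟩ := h8
    refine ⟨y, hy, ?_⟩
    rw [Metric.mem_ball] at hd ⊢
    calc dist (toL a (G n)) y ≤ dist (toL a (G n)) Q + dist Q y := dist_triangle _ _ _
      _ < ε / 2 + ε / 2 := by
        rw [dist_eq_norm]
        linarith
      _ = ε := by ring
  have hcp : IsCompact (closure (range fun n => toL a (G n))) :=
    htb.closure.isCompact_of_isClosed isClosed_closure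
  obtain ⟨φ, _, ψ, hψ, hlim⟩ := hcp.tendsto_subseq (x := fun n => toL a (G n))
    (fun n => subset_closure ⟨n, rfl⟩)
  exact ⟨φ, ψ, hψ, hlim⟩

end Pool.Agent.Helper61.W.GS
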