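import Pool.Agent.Helper61.GS.Nl

set_option autoImplicit false

/-!
# If the lowest eigenvalue tends to `-∞`, the zeros of ground states fill the critical line
-/

namespace Pool.Agent.Helper61.W.GS

open Complex Filter Topology Set MeasureTheory
open scoped ComplexConjugate ContDiff
open Pool.Agent.V11271.LI (Zr mm cfg_zeta zz mm_one_le)

variable {a : ℝ}

/-- the operator on rescaled test functions -/
lemma Aw_gs {η : ℝ → ℂ} (hη : TF η) {R : ℝ} (s w : ℂ) (x : ℝ) :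
    Aw w (gs η R s) x = (s - w) * gs η R s x - (R : ℂ)⁻¹ * gs (deriv η) R s x := by
  have h1 : HasDerivAt (fun x : ℝ => η (x / R)) ((R : ℂ)⁻¹ * deriv η (x / R)) x := by
    have h2 := (hη.hasDerivAt (x / R)).scomp x ((hasDerivAt_id x).div_const R)
    refine h2.congr_deriv ?_
    rw [Complex.real_smul]
    push_cast
    ring
  have h2 : HasDerivAt (fun x : ℝ => cexp (-s * x)) (-s * cexp (-s * x)) x := hasDerivAt_exp (-s) x
  have h3 : HasDerivAt (gs η R s) ((R : ℂ)⁻¹ * ((R : ℂ)⁻¹ * deriv η (x / R) * cexp (-s * x) +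
      η (x / R) * (-s * cexp (-s * x)))) x := (h1.mul h2).const_mul _
  unfold Aw
  rw [h3.deriv]
  unfold gs
  ring

/-- the negation of the limiting inequality -/
lemma no_ineq' (s : ℂ) (hs : s.re = 0) {δ ε : ℝ} (hδ : 0 < δ) (hε : 2 * δ < ε)
    (h : ∀ b : ℝ, 0 < b → ∀ g : Ts b, ‖inner ℂ (toL b (Ao b (s + δ * I) g)) (toL b g)‖ ≤
      2 / ε * ‖toL b (Ao b (s + δ * I) g)‖ ^ 2) : False := by
  obtain ⟨η, hη⟩ := exists_norm_one one_pos
  have hηT := Ts.tf η.2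
  have hd : deriv (η : ℝ → ℂ) ∈ Ts 1 := by
    have h1 := Aw_mem (a := 1) 0 η.2
    have h2 := (Ts 1).smul_mem (-1 : ℂ) h1
    have e : (-1 : ℂ) • Aw 0 (η : ℝ → ℂ) = deriv (η : ℝ → ℂ) := by
      funext x
      simp [Aw]
    rwa [e] at h2
  set N' : ℝ := ∫ x, ‖deriv (η : ℝ → ℂ) x‖ ^ 2 with hN'
  have hN : ∫ x, ‖(η : ℝ → ℂ) x‖ ^ 2 = 1 := by rw [← norm_toL, hη, one_pow]
  have hN'0 : 0 ≤ N' := integral_nonneg fun x => by positivity
  -- the inequality for each scale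
  have key : ∀ n : ℕ, δ - Real.sqrt N' / ((n : ℝ) + 1) ≤ 2 / ε * (δ + Real.sqrt N' / ((n : ℝ) + 1)) ^ 2 := by
    intro n
    set R : ℝ := (n : ℝ) + 1 with hRdef
    have hR : 0 < R := by positivity
    set g : Ts R := ⟨gs η R s, gs_mem η.2 hR s⟩ with hg
    set r : Ts R := ⟨gs (deriv η) R s, gs_mem hd hR s⟩ with hr
    have ng : ‖toL R g‖ ^ 2 = R⁻¹ := by
      rw [norm_toL]
      show ∫ x, ‖gs η R s x‖ ^ 2 = _
      rw [norm_gs hR hs, hN, mul_one]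
    have nr : ‖toL R r‖ ^ 2 = R⁻¹ * N' := by
      rw [norm_toL]
      show ∫ x, ‖gs (deriv η) R s x‖ ^ 2 = _
      rw [norm_gs hR hs]
    have ng' : ‖toL R g‖ = Real.sqrt R⁻¹ := by rw [← ng, Real.sqrt_sq (norm_nonneg _)]
    have nr' : ‖toL R r‖ = Real.sqrt R⁻¹ * Real.sqrt N' := by
      rw [← Real.sqrt_mul (by positivity), ← nr, Real.sqrt_sq (norm_nonneg _)]
    have hA : Ao R (s + δ * I) g = (-(δ * I) : ℂ) • g - ((R : ℂ)⁻¹) • r := by
      apply Subtype.ext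
      funext x
      show Aw (s + δ * I) (gs η R s) x = -(δ * I) * gs η R s x - (R : ℂ)⁻¹ * gs (deriv η) R s x
      rw [Aw_gs hηT]
      ring
    have h1 := h R hR g
    rw [hA, map_sub, map_smul, map_smul] at h1
    set G := toL R g with hG
    set Q := toL R r with hQ
    have e1 : ‖(-(δ * I) : ℂ) • G - ((R : ℂ)⁻¹) • Q‖ ≤ δ * ‖G‖ + R⁻¹ * ‖Q‖ := by
      refine (norm_sub_le _ _).trans ?_
      rw [norm_smul, norm_smul, norm_neg, norm_mul, Complex.norm_I, mul_one, Complex.norm_real, norm_inv,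
        Complex.norm_real, Real.norm_of_nonneg hδ.le, Real.norm_of_nonneg hR.le]
    have e2 : δ * ‖G‖ ^ 2 - R⁻¹ * (‖Q‖ * ‖G‖) ≤ ‖inner ℂ ((-(δ * I) : ℂ) • G - ((R : ℂ)⁻¹) • Q) G‖ := by
      rw [inner_sub_left, inner_smul_left, inner_smul_left, inner_self_eq_norm_sq_to_K]
      have e3 : ‖conj (-(δ * I) : ℂ) * ((‖G‖ : ℂ)) ^ 2‖ = δ * ‖G‖ ^ 2 := by
        rw [norm_mul, Complex.norm_conj, norm_neg, norm_mul, Complex.norm_I, mul_one, Complex.norm_real,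
          Real.norm_of_nonneg hδ.le, norm_pow, Complex.norm_real, norm_norm]
      have e4 : ‖conj ((R : ℂ)⁻¹) * inner ℂ Q G‖ ≤ R⁻¹ * (‖Q‖ * ‖G‖) := by
        rw [norm_mul, Complex.norm_conj, norm_inv, Complex.norm_real, Real.norm_of_nonneg hR.le]
        exact mul_le_mul_of_nonneg_left (norm_inner_le_norm _ _) (by positivity)
      have e5 := norm_sub_norm_le (conj (-(δ * I) : ℂ) * ((‖G‖ : ℂ)) ^ 2) (conj ((R : ℂ)⁻¹) * inner ℂ Q G)
      rw [e3] at e5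
      exact le_trans (by linarith) e5
    have e6 : ‖Q‖ = Real.sqrt N' * ‖G‖ := by rw [nr', ng']; ring
    have hGp : 0 < ‖G‖ ^ 2 := by rw [ng]; positivity
    have hεp : 0 < ε := by linarith
    have e7 : ‖(-(δ * I) : ℂ) • G - ((R : ℂ)⁻¹) • Q‖ ^ 2 ≤ (δ * ‖G‖ + R⁻¹ * ‖Q‖) ^ 2 :=
      pow_le_pow_left₀ (norm_nonneg _) e1 2
    have e8 : δ * ‖G‖ ^ 2 - R⁻¹ * (‖Q‖ * ‖G‖) ≤ 2 / ε * (δ * ‖G‖ + R⁻¹ * ‖Q‖) ^ 2 :=
      e2.trans (h1.trans (mul_le_mul_of_nonneg_left e7 (by positivity)))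
    rw [e6] at e8
    have e9 : (δ - Real.sqrt N' / R) * ‖G‖ ^ 2 ≤ (2 / ε * (δ + Real.sqrt N' / R) ^ 2) * ‖G‖ ^ 2 := by
      calc (δ - Real.sqrt N' / R) * ‖G‖ ^ 2 = δ * ‖G‖ ^ 2 - R⁻¹ * (Real.sqrt N' * ‖G‖ * ‖G‖) := by
            rw [div_eq_mul_inv]; ring
        _ ≤ 2 / ε * (δ * ‖G‖ + R⁻¹ * (Real.sqrt N' * ‖G‖)) ^ 2 := e8
        _ = _ := by rw [div_eq_mul_inv (Real.sqrt N')]; ring
    exact le_of_mul_le_mul_right e9 hGp
  have hl : Tendsto (fun n : ℕ => Real.sqrt N' / ((n : ℝ) + 1)) atTop (𝓝 0) := by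
    apply tendsto_const_nhds.div_atTop
    exact tendsto_natCast_atTop_atTop.atTop_add tendsto_const_nhds
  have h1 := (hl.const_sub δ)
  have h2 := (((hl.const_add δ).pow 2).const_mul (2 / ε))
  have h3 := le_of_tendsto_of_tendsto' h1 h2 key
  rw [sub_zero, add_zero, div_mul_eq_mul_div, le_div_iff₀ (by linarith : 0 < ε)] at h3
  nlinarith

/-- if the lowest eigenvalue tends to `-∞`, the zeros of ground states fill the critical line -/
theorem zeros_dense (hlow : Tendsto low atTop atBot) (s : ℂ) (hs : s.re = 0) {ε0 : ℝ} (hε0 : 0 < ε0) :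
    ∃ A : ℝ, ∀ a : ℝ, A ≤ a → ∀ (ha : 0 < a), ∀ φ ∈ E ha, ∃ z : ℂ, ‖z - s‖ < ε0 ∧ ev a z φ = 0 := by
  by_contra hcon
  push Not at hcon
  refine no_ineq' s hs (δ := ε0 / 8) (ε := ε0 / 2) (by positivity) (by linarith) fun b hb g => ?_
  set w0 : ℂ := s + (ε0 / 8 : ℝ) * I with hw0
  have hw0re : w0.re = 0 := by simp [hw0, hs]
  set f : Ts b := Ao b w0 g with hf
  by_contra hlt
  push Not at hlt
  set M : ℝ := ‖Wf g f‖ + 2 / (ε0 / 2) * |(Wf f f).re| with hM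
  set D : ℝ := ‖inner ℂ (toL b f) (toL b g)‖ - 2 / (ε0 / 2) * ‖toL b f‖ ^ 2 with hD
  have hDp : 0 < D := sub_pos.mpr hlt
  have hev := tendsto_atBot.mp hlow (-(M / D + 1))
  obtain ⟨A0, hA0⟩ := eventually_atTop.mp hev
  obtain ⟨a, haA, ha, φ, hφ, hnz⟩ := hcon (max A0 b)
  have hab : b ≤ a := (le_max_right _ _).trans haA
  have h1 := hA0 a ((le_max_left _ _).trans haA)
  set gA : Ts a := ⟨g, Ts.mono hab g.2⟩ with hgA
  have hball : ∀ z ∈ Metric.closedBall w0 (ε0 / 2), ev a z φ ≠ 0 := by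
    intro z hz
    apply hnz
    rw [Metric.mem_closedBall, dist_eq_norm] at hz
    have e1 : z - s = (z - w0) + (ε0 / 8 : ℝ) * I := by
      rw [hw0]
      ring
    rw [e1]
    refine (norm_add_le _ _).trans_lt ?_
    rw [norm_mul, Complex.norm_I, mul_one, Complex.norm_real, Real.norm_of_nonneg (by positivity)]
    linarith
  have h2 := star ha hφ hw0re (by positivity : 0 < ε0 / 2) hball gA
  have hfA : (Ao a w0 gA : ℝ → ℂ) = (f : ℝ → ℂ) := rfl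
  rw [form_self] at h2
  have e1 : (form ha).B gA (Ao a w0 gA) = Wf g f - (low a : ℂ) * inner ℂ (toL a (Ao a w0 gA)) (toL a gA) := rfl
  have e2 : ‖toL a (Ao a w0 gA)‖ ^ 2 = ‖toL b f‖ ^ 2 := by
    rw [norm_toL, norm_toL]
    rfl
  have e3 : inner ℂ (toL a (Ao a w0 gA)) (toL a gA) = inner ℂ (toL b f) (toL b g) := by
    rw [inner_toL, inner_toL]
    rfl
  rw [e1, e2, e3, hfA] at h2
  have h3 : ‖(low a : ℂ) * inner ℂ (toL b f) (toL b g)‖ ≤ ‖Wf g f‖ +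
      ‖Wf g f - (low a : ℂ) * inner ℂ (toL b f) (toL b g)‖ := by
    have := norm_sub_le (Wf g f) (Wf g f - (low a : ℂ) * inner ℂ (toL b f) (toL b g))
    rwa [sub_sub_cancel] at this
  rw [norm_mul, Complex.norm_real, Real.norm_eq_abs] at h3
  have hMD : 0 ≤ M / D := by positivity
  have hneg : low a < 0 := by linarith
  rw [abs_of_neg hneg] at h3
  have h4 : 2 / (ε0 / 2) * (Wf f f).re ≤ 2 / (ε0 / 2) * |(Wf f f).re| :=
    mul_le_mul_of_nonneg_left (le_abs_self _) (by positivity)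
  have h5 : -low a * D ≤ M := by
    rw [hD, hM]
    have e : 2 / (ε0 / 2) * ((Wf f f).re - low a * ‖toL b f‖ ^ 2) =
        2 / (ε0 / 2) * (Wf f f).re - low a * (2 / (ε0 / 2) * ‖toL b f‖ ^ 2) := by ring
    rw [e] at h2
    nlinarith
  have h6 : (M / D + 1) * D ≤ -low a * D := mul_le_mul_of_nonneg_right (by linarith) hDp.le
  have h7 : (M / D + 1) * D = M + D := by field_simp
  linarith

/-- every zero on the critical line is a limit of zeros of ground states -/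
theorem critical_zeros (ρ0 : Zr) (h0 : (zz ρ0).re = 0) {ε0 : ℝ} (hε0 : 0 < ε0) : ∃ A : ℝ, ∀ a : ℝ, A ≤ a →
    ∀ (ha : 0 < a), ∀ φ ∈ E ha, ∃ z : ℂ, ‖z - zz ρ0‖ < ε0 ∧ ev a z φ = 0 := by
  by_cases hR : ∀ ρ : Zr, (zz ρ).re = 0
  · exact zeros_near hR ρ0 hε0
  · push Not at hR
    exact zeros_dense (low_atBot hR) _ h0 hε0

end Pool.Agent.Helper61.W.GS
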