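import Pool.Agent.Helper61.GS.Fo

set_option autoImplicit false

/-!
# Transforms as entire functions
-/

namespace Pool.Agent.Helper61.W.GS

open Complex Filter Topology Set MeasureTheory
open scoped ComplexConjugate ContDiff
open Pool.Agent.V11271.LI (Zr mm cfg_zeta zz)

variable {a : ℝ}

/-- exponential integrals are entire -/
lemma diff_gen {α : Type*} [MeasurableSpace α] {μ : Measure α} {Φ : α → ℂ} (hΦ : Integrable Φ μ)
    {τ : α → ℝ} (hτ : Measurable τ) {R : ℝ} (hR : ∀ x, Φ x ≠ 0 → |τ x| ≤ R) :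
    Differentiable ℂ (fun w : ℂ => ∫ x, Φ x * cexp (w * τ x) ∂μ) := by
  intro z0
  have hτc : Measurable fun x => (τ x : ℂ) := Complex.measurable_ofReal.comp hτ
  have hexp : ∀ (z : ℂ) (x : α), Φ x ≠ 0 → ‖z‖ ≤ ‖z0‖ + 1 → ‖cexp (z * τ x)‖ ≤ Real.exp ((‖z0‖ + 1) * R) := by
    intro z x hx hz
    rw [Complex.norm_exp]
    apply Real.exp_le_exp.mpr
    calc (z * τ x).re ≤ ‖z * τ x‖ := Complex.re_le_norm _
      _ = ‖z‖ * |τ x| := by rw [norm_mul, Complex.norm_real, Real.norm_eq_abs]
      _ ≤ (‖z0‖ + 1) * R := mul_le_mul hz (hR x hx) (abs_nonneg _) (by positivity)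
  have hint : ∀ z : ℂ, ‖z‖ ≤ ‖z0‖ + 1 → Integrable (fun x => Φ x * cexp (z * τ x)) μ := by
    intro z hz
    refine (hΦ.norm.mul_const (Real.exp ((‖z0‖ + 1) * R))).mono'
      (hΦ.aestronglyMeasurable.mul (by fun_prop : Measurable fun x => cexp (z * τ x)).aestronglyMeasurable)
      (Eventually.of_forall fun x => ?_)
    rw [norm_mul]
    by_cases hx : Φ x = 0
    · rw [hx]
      simp
    · exact mul_le_mul_of_nonneg_left (hexp z x hx hz) (norm_nonneg _)
  have key := hasDerivAt_integral_of_dominated_loc_of_deriv_le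
    (F := fun (z : ℂ) (x : α) => Φ x * cexp (z * τ x))
    (F' := fun (z : ℂ) (x : α) => Φ x * ((τ x : ℂ) * cexp (z * τ x))) (x₀ := z0)
    (s := Metric.ball z0 1) (μ := μ)
    (bound := fun x : α => ‖Φ x‖ * (R * Real.exp ((‖z0‖ + 1) * R)))
    (Metric.ball_mem_nhds z0 one_pos)
    (Eventually.of_forall fun z => hΦ.aestronglyMeasurable.mul
      (by fun_prop : Measurable fun x => cexp (z * τ x)).aestronglyMeasurable)
    (hint z0 (by linarith))
    (hΦ.aestronglyMeasurable.mul
      (by fun_prop : Measurable fun x => (τ x : ℂ) * cexp (z0 * τ x)).aestronglyMeasurable)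
    (Eventually.of_forall fun x z hz => ?_)
    (hΦ.norm.mul_const _)
    (Eventually.of_forall fun x z _ => ?_)
  · exact key.2.differentiableAt
  · have h1 : ‖z‖ ≤ ‖z0‖ + 1 := by
      rw [Metric.mem_ball, dist_eq_norm] at hz
      have := norm_sub_norm_le z z0
      linarith
    rw [norm_mul, norm_mul, Complex.norm_real, Real.norm_eq_abs]
    by_cases hx : Φ x = 0
    · rw [hx]
      simp
    · have h2 := hR x hx
      have h3 : 0 ≤ R := (abs_nonneg _).trans h2
      exact mul_le_mul_of_nonneg_left (mul_le_mul h2 (hexp z x hx h1) (norm_nonneg _) h3) (norm_nonneg _)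
  · have h1 : HasDerivAt (fun z : ℂ => z * (τ x : ℂ)) (1 * (τ x : ℂ)) z := (hasDerivAt_id z).mul_const _
    have h2 := (h1.cexp).const_mul (Φ x)
    have h3 : Φ x * (cexp (z * τ x) * (1 * (τ x : ℂ))) = Φ x * ((τ x : ℂ) * cexp (z * τ x)) := by ring
    rw [h3] at h2
    exact h2

lemma phi_int (φ : HL) : Integrable (indicator (Icc (-a) a) (φ : ℝ → ℂ)) := by
  rw [integrable_indicator_iff measurableSet_Icc]
  exact ((Lp.memLp φ).restrict _).integrable (by norm_num)

lemma ev_ind (φ : HL) (z : ℂ) :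
    ev a z φ = ∫ x, indicator (Icc (-a) a) (φ : ℝ → ℂ) x * cexp (z * x) := by
  rw [ev_eq_int]
  congr 1
  funext x
  unfold ct
  by_cases h : x ∈ Icc (-a) a
  · rw [indicator_of_mem h, indicator_of_mem h, mul_comm]
  · rw [indicator_of_notMem h, indicator_of_notMem h, zero_mul, zero_mul]

lemma ev_differentiable (φ : HL) : Differentiable ℂ (fun z => ev a z φ) := by
  have h := diff_gen (phi_int (a := a) φ) (τ := fun x => x) measurable_id (R := |a|) (fun x hx => by
    have hm : x ∈ Icc (-a) a := by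
      by_contra h
      exact hx (indicator_of_notMem h _)
    exact (abs_le.mpr ⟨hm.1, hm.2⟩).trans (le_abs_self a))
  have e : (fun z => ev a z φ) = fun w : ℂ => ∫ x, indicator (Icc (-a) a) (φ : ℝ → ℂ) x * cexp (w * x) := by
    funext z
    exact ev_ind φ z
  rw [e]
  exact h

lemma ev_cont (φ : HL) : Continuous (fun z => ev a z φ) := (ev_differentiable φ).continuous

/-- an element whose transform vanishes is orthogonal to the test functions -/
lemma ev_inj {φ : HL} (h0 : ∀ z, ev a z φ = 0) (g : Ts a) : inner ℂ (toL a g) φ = 0 := by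
  set h : ℝ → ℂ := fun x => conj ((g : ℝ → ℂ) x) with hh
  have hg := Ts.tf g.2
  have hT : TF h := ⟨(Complex.conjCLE.contDiff).comp hg.smooth, hg.supp.comp_left (g := fun z : ℂ => conj z) (map_zero _)⟩
  have hz : ∀ x, x ∉ Icc (-a) a → h x = 0 := by
    intro x hx
    simp only [hh]
    rw [g.2.2 x, map_zero]
    by_contra hlt
    push Not at hlt
    exact hx ⟨(abs_le.mp hlt).1, (abs_le.mp hlt).2⟩
  have e1 : inner ℂ (toL a g) φ = ∫ x, h x * indicator (Icc (-a) a) (φ : ℝ → ℂ) x := by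
    rw [L2.inner_def]
    apply integral_congr_ae
    filter_upwards [MemLp.coeFn_toLp (Ts.memLp g.2)] with x hx
    have hx' : (toL a g : ℝ → ℂ) x = (g : ℝ → ℂ) x := hx
    rw [hx', RCLike.inner_apply, mul_comm]
    by_cases hm : x ∈ Icc (-a) a
    · rw [indicator_of_mem hm]
    · rw [indicator_of_notMem hm, mul_zero]
      have := hz x hm
      simp only [hh] at this
      rw [this, zero_mul]
  have e2 : ∀ x : ℝ, (2 * Real.pi : ℂ) * (h x * indicator (Icc (-a) a) (φ : ℝ → ℂ) x) =
      ∫ y : ℝ, LT h (((0 : ℝ) : ℂ) + y * I) * (indicator (Icc (-a) a) (φ : ℝ → ℂ) x *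
        cexp (-(((0 : ℝ) : ℂ) + y * I) * x)) := by
    intro x
    have h1 := LT_inversion hT 0 x
    have h2 : ∫ y : ℝ, LT h (((0 : ℝ) : ℂ) + y * I) * (indicator (Icc (-a) a) (φ : ℝ → ℂ) x *
        cexp (-(((0 : ℝ) : ℂ) + y * I) * x)) = indicator (Icc (-a) a) (φ : ℝ → ℂ) x *
        ∫ y : ℝ, LT h (((0 : ℝ) : ℂ) + y * I) * cexp (-(((0 : ℝ) : ℂ) + y * I) * x) := by
      rw [← integral_const_mul]
      congr 1
      funext y
      ring
    rw [h2, h1]
    ring
  have hli : Integrable (fun y : ℝ => LT h (((0 : ℝ) : ℂ) + y * I)) := by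
    have := LT_line_integrable hT 0 (g := fun _ => 1) continuous_const (K := 1) (fun y => by
      simp; positivity)
    simpa using this
  have hprod : Integrable (fun z : ℝ × ℝ => LT h (((0 : ℝ) : ℂ) + z.2 * I) *
      (indicator (Icc (-a) a) (φ : ℝ → ℂ) z.1 * cexp (-(((0 : ℝ) : ℂ) + z.2 * I) * z.1)))
      (volume.prod volume) := by
    have h1 := (phi_int (a := a) φ).mul_prod hli
    have h2 : Integrable (fun z : ℝ × ℝ => cexp (-(((0 : ℝ) : ℂ) + z.2 * I) * z.1) *
        (indicator (Icc (-a) a) (φ : ℝ → ℂ) z.1 * LT h (((0 : ℝ) : ℂ) + z.2 * I)))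
        (volume.prod volume) := by
      refine h1.bdd_mul (c := 1) ?_ (Eventually.of_forall fun z => ?_)
      · exact (by fun_prop : Continuous fun z : ℝ × ℝ =>
          cexp (-(((0 : ℝ) : ℂ) + z.2 * I) * z.1)).aestronglyMeasurable
      · rw [Complex.norm_exp]
        simp
    refine h2.congr (Eventually.of_forall fun z => ?_)
    simp only
    ring
  have e3 : (2 * Real.pi : ℂ) * inner ℂ (toL a g) φ = 0 := by
    rw [e1, ← integral_const_mul]
    simp_rw [e2]
    have hsw := integral_integral_swap (μ := (volume : Measure ℝ)) (ν := (volume : Measure ℝ))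
      (f := fun (x y : ℝ) => LT h (((0 : ℝ) : ℂ) + y * I) *
        (indicator (Icc (-a) a) (φ : ℝ → ℂ) x * cexp (-(((0 : ℝ) : ℂ) + y * I) * x))) hprod
    rw [hsw]
    apply integral_eq_zero_of_ae
    refine Eventually.of_forall fun y => ?_
    simp only [Pi.zero_apply]
    rw [integral_const_mul, ← ev_ind, h0, mul_zero]
  have hpi : (2 * Real.pi : ℂ) ≠ 0 := mul_ne_zero two_ne_zero (by exact_mod_cast Real.pi_ne_zero)
  exact (mul_eq_zero.mp e3).resolve_left hpi

lemma ev_zero {φ : HL} (hφ : φ ∈ closure (range (toL a))) (h0 : ∀ z, ev a z φ = 0) : φ = 0 := by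
  rw [mem_closure_iff_seq_limit] at hφ
  obtain ⟨x, hx, hlim⟩ := hφ
  have h1 : ∀ n, inner ℂ (x n) φ = 0 := by
    intro n
    obtain ⟨g, hg⟩ := hx n
    rw [← hg]
    exact ev_inj h0 g
  have h2 : Tendsto (fun n => inner ℂ (x n) φ) atTop (𝓝 (inner ℂ φ φ)) := hlim.inner tendsto_const_nhds
  simp_rw [h1] at h2
  have h3 : inner ℂ φ φ = 0 := tendsto_nhds_unique h2 tendsto_const_nhds
  exact inner_self_eq_zero.mp h3

end Pool.Agent.Helper61.W.GS
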