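import Pool.Agent.Helper61.W.Corr

set_option autoImplicit false

/-!
# Weil's sesquilinear form on test functions
-/

namespace Pool.Agent.Helper61.W.GS

open Complex Filter Topology Set MeasureTheory
open scoped ComplexConjugate ContDiff Convolution
open Pool.Agent.V11271.LI (Zr mm cfg_zeta zz)

/-- the test functions supported in `[-a, a]` -/
def Ts (a : ℝ) : Submodule ℂ (ℝ → ℂ) where
  carrier := {g | ContDiff ℝ ∞ g ∧ ∀ x, a < |x| → g x = 0}
  add_mem' := by
    rintro f g ⟨hf, hf'⟩ ⟨hg, hg'⟩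
    exact ⟨hf.add hg, fun x hx => by simp [hf' x hx, hg' x hx]⟩
  zero_mem' := ⟨contDiff_const, fun _ _ => rfl⟩
  smul_mem' := by
    rintro c g ⟨hg, hg'⟩
    exact ⟨contDiff_const.smul hg, fun x hx => by simp [hg' x hx]⟩

variable {a : ℝ} {f g h : ℝ → ℂ}

lemma Ts.tf (h : g ∈ Ts a) : TF g := by
  refine ⟨h.1, HasCompactSupport.intro (K := Icc (-a) a) isCompact_Icc fun x hx => h.2 x ?_⟩
  by_contra hlt
  push Not at hlt
  exact hx ⟨(abs_le.mp hlt).1, (abs_le.mp hlt).2⟩

lemma Ts.mono {b : ℝ} (hab : a ≤ b) (h : g ∈ Ts a) : g ∈ Ts b :=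
  ⟨h.1, fun x hx => h.2 x (lt_of_le_of_lt hab hx)⟩

/-- the convolution whose transform is the product -/
noncomputable def cc (f g : ℝ → ℂ) : ℝ → ℂ := (f ⋆[ContinuousLinearMap.mul ℝ ℂ, volume] star' g)

lemma cc_tf (hf : TF f) (hg : TF g) : TF (cc f g) := by
  unfold cc
  refine ⟨?_, ?_⟩
  · exact hf.supp.contDiff_convolution_left _ hf.smooth hg.star'.cont.locallyIntegrable
  · exact hf.supp.convolution _ hg.star'.supp

lemma LT_cc (hf : TF f) (hg : TF g) (z : ℂ) : LT (cc f g) z = LT f z * conj (LT g (-conj z)) := by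
  rw [← LT_star hg]
  have e1 : LT (cc f g) z = ∫ u : ℝ, ((fun y : ℝ => f y * cexp (z * y)) ⋆[ContinuousLinearMap.mul ℝ ℂ, volume]
      (fun y : ℝ => star' g y * cexp (z * y))) u := by
    unfold LT cc
    congr 1
    funext u
    rw [convolution_def, convolution_def, ← integral_mul_const]
    congr 1
    funext y
    simp only [ContinuousLinearMap.mul_apply']
    have : cexp (z * u) = cexp (z * y) * cexp (z * ((u - y : ℝ) : ℂ)) := by
      rw [← Complex.exp_add]
      congr 1
      push_cast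
      ring
    rw [this]
    ring
  rw [e1, integral_convolution _ (hf.integrable z) (hg.star'.integrable z)]
  rfl

/-- the summand of the form -/
noncomputable def wt (f g : ℝ → ℂ) (ρ : Zr) : ℂ :=
  (mm ρ : ℂ) * (LT f (zz ρ) * conj (LT g (-conj (zz ρ))))

lemma wt_eq (hf : TF f) (hg : TF g) (ρ : Zr) : wt f g ρ = tm (cc f g) ρ := by
  unfold wt tm
  rw [LT_cc hf hg]
  rfl

lemma summable_wt (hf : TF f) (hg : TF g) : Summable (wt f g) := by
  have := summable_tm (cc_tf hf hg)
  refine this.congr fun ρ => ?_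
  rw [wt_eq hf hg]

/-- Weil's form -/
noncomputable def Wf (f g : ℝ → ℂ) : ℂ := ∑' ρ : Zr, wt f g ρ

lemma LT_add (hf : TF f) (hg : TF g) (z : ℂ) : LT (f + g) z = LT f z + LT g z := by
  unfold LT
  rw [← integral_add (hf.integrable z) (hg.integrable z)]
  congr 1
  funext u
  simp only [Pi.add_apply]
  ring

lemma LT_smul (c : ℂ) (z : ℂ) : LT (c • f) z = c * LT f z := by
  unfold LT
  rw [← integral_const_mul]
  congr 1
  funext u
  simp only [Pi.smul_apply, smul_eq_mul]
  ring

lemma Wf_add_left (hf : TF f) (hg : TF g) (hh : TF h) : Wf (f + g) h = Wf f h + Wf g h := by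
  unfold Wf
  rw [← (summable_wt hf hh).tsum_add (summable_wt hg hh)]
  congr 1
  funext ρ
  unfold wt
  rw [LT_add hf hg]
  ring

lemma Wf_smul_left (c : ℂ) : Wf (c • f) h = c * Wf f h := by
  unfold Wf
  rw [← tsum_mul_left]
  congr 1
  funext ρ
  unfold wt
  rw [LT_smul]
  ring

lemma Wf_add_right (hf : TF f) (hg : TF g) (hh : TF h) : Wf h (f + g) = Wf h f + Wf h g := by
  unfold Wf
  rw [← (summable_wt hh hf).tsum_add (summable_wt hh hg)]
  congr 1
  funext ρ
  unfold wt
  rw [LT_add hf hg, map_add]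
  ring

lemma Wf_smul_right (c : ℂ) : Wf h (c • f) = conj c * Wf h f := by
  unfold Wf
  rw [← tsum_mul_left]
  congr 1
  funext ρ
  unfold wt
  rw [LT_smul, map_mul]
  ring

lemma Wf_self (hg : TF g) : Wf g g = ((JJ fun u => (corr g u).re : ℝ) : ℂ) := by
  rw [← weil_eq hg]
  unfold Wf
  congr 1
  funext ρ
  unfold wt tm
  rw [LT_corr hg]
  rfl

lemma Wf_self_im (hg : TF g) : (Wf g g).im = 0 := by
  rw [Wf_self hg, Complex.ofReal_im]

lemma TF.add' (hf : TF f) (hg : TF g) : TF (f + g) := ⟨hf.smooth.add hg.smooth, hf.supp.add hg.supp⟩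

lemma TF.smul' (c : ℂ) (hf : TF f) : TF (c • f) :=
  ⟨contDiff_const.smul hf.smooth, hf.supp.comp_left (g := fun z : ℂ => c • z) (by simp)⟩

lemma Wf_symm (hf : TF f) (hg : TF g) : conj (Wf f g) = Wf g f := by
  have h1 := Wf_self_im (TF.add' hf hg)
  rw [Wf_add_left hf hg (TF.add' hf hg), Wf_add_right hf hg hf, Wf_add_right hf hg hg] at h1
  have h2 := Wf_self_im (TF.add' hf (TF.smul' I hg))
  have hIg := TF.smul' I hg
  rw [Wf_add_left hf hIg (TF.add' hf hIg), Wf_add_right hf hIg hf, Wf_add_right hf hIg hIg,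
    Wf_smul_left, Wf_smul_left, Wf_smul_right, Wf_smul_right] at h2
  have h3 := Wf_self_im hf
  have h4 := Wf_self_im hg
  apply Complex.ext
  · simp only [Complex.add_im, Complex.mul_im, Complex.mul_re, Complex.I_re, Complex.I_im,
      Complex.conj_I, Complex.neg_re, Complex.neg_im, h3, h4] at h1 h2
    rw [Complex.conj_re]
    linarith
  · simp only [Complex.add_im, h3, h4] at h1
    rw [Complex.conj_im]
    linarith

end Pool.Agent.Helper61.W.GS
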