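import Pool.Agent.Helper61.GS.Op

set_option autoImplicit false

/-!
# The shifted form
-/

namespace Pool.Agent.Helper61.W.GS

open Complex Filter Topology Set MeasureTheory
open scoped ComplexConjugate ContDiff
open Pool.Agent.V11271.LI (Zr mm cfg_zeta zz)

variable {a : ℝ}

lemma inner_toL (f g : Ts a) : inner ℂ (toL a g) (toL a f) = ∫ x, conj ((g : ℝ → ℂ) x) * (f : ℝ → ℂ) x := by
  rw [L2.inner_def]
  apply integral_congr_ae
  filter_upwards [MemLp.coeFn_toLp (Ts.memLp g.2), MemLp.coeFn_toLp (Ts.memLp f.2)] with x h1 h2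
  have h1' : (toL a g : ℝ → ℂ) x = (g : ℝ → ℂ) x := h1
  have h2' : (toL a f : ℝ → ℂ) x = (f : ℝ → ℂ) x := h2
  rw [h1', h2', RCLike.inner_apply, mul_comm]

lemma inner_adj (w : ℂ) (k g : Ts a) : inner ℂ (toL a g) (toL a (Ao a w k)) =
    -inner ℂ (toL a (Ao a (-conj w) g)) (toL a k) := by
  rw [inner_toL, inner_toL, ← integral_neg]
  have hk := Ts.tf k.2
  have hg := Ts.tf g.2
  have hd : ∀ x : ℝ, HasDerivAt (fun x : ℝ => conj ((g : ℝ → ℂ) x) * (k : ℝ → ℂ) x)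
      (conj (deriv g x) * (k : ℝ → ℂ) x + conj ((g : ℝ → ℂ) x) * deriv k x) x := fun x =>
    ((hg.hasDerivAt x).star).mul (hk.hasDerivAt x)
  have ig : Continuous (fun x : ℝ => conj ((g : ℝ → ℂ) x)) := Complex.continuous_conj.comp hg.cont
  have ig' : Continuous (fun x : ℝ => conj (deriv g x)) := Complex.continuous_conj.comp hg.deriv.cont
  have i1 : Integrable (fun x : ℝ => conj (deriv g x) * (k : ℝ → ℂ) x) := by
    have := hk.mul_cont ig'
    refine this.congr (Eventually.of_forall fun x => ?_)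
    simp only
    ring
  have i2 : Integrable (fun x : ℝ => conj ((g : ℝ → ℂ) x) * deriv k x) := by
    have := hk.deriv.mul_cont ig
    refine this.congr (Eventually.of_forall fun x => ?_)
    simp only
    ring
  have i3 : Integrable (fun x : ℝ => conj ((g : ℝ → ℂ) x) * (k : ℝ → ℂ) x) := by
    have := hk.mul_cont ig
    refine this.congr (Eventually.of_forall fun x => ?_)
    simp only
    ring
  have h0 := integral_eq_zero_of_hasDerivAt_of_integrable hd (i1.add i2) i3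
  have e1 : ∀ x : ℝ, conj ((g : ℝ → ℂ) x) * ((Ao a w k : Ts a) : ℝ → ℂ) x =
      -(conj (((Ao a (-conj w) g : Ts a) : ℝ → ℂ) x) * (k : ℝ → ℂ) x) -
      (conj (deriv g x) * (k : ℝ → ℂ) x + conj ((g : ℝ → ℂ) x) * deriv k x) := by
    intro x
    show conj ((g : ℝ → ℂ) x) * (-(deriv k x + w * (k : ℝ → ℂ) x)) =
      -(conj (-(deriv g x + -conj w * (g : ℝ → ℂ) x)) * (k : ℝ → ℂ) x) -
      (conj (deriv g x) * (k : ℝ → ℂ) x + conj ((g : ℝ → ℂ) x) * deriv k x)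
    simp only [map_neg, map_add, map_mul, Complex.conj_conj]
    ring
  have i12 : Integrable (fun x : ℝ => conj (deriv g x) * (k : ℝ → ℂ) x + conj ((g : ℝ → ℂ) x) * deriv k x) :=
    i1.add i2
  simp_rw [e1]
  rw [integral_sub _ i12, h0, sub_zero]
  have hA : Continuous (fun x : ℝ => conj (((Ao a (-conj w) g : Ts a) : ℝ → ℂ) x)) :=
    Complex.continuous_conj.comp (Ts.tf (Ao a (-conj w) g).2).cont
  have := (hk.mul_cont hA).neg
  refine this.congr (Eventually.of_forall fun x => ?_)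
  simp only [Pi.neg_apply]
  ring

lemma Wf_adj (w : ℂ) (k g : Ts a) : Wf (Ao a w k) g = -Wf k (Ao a (-conj w) g) := by
  unfold Wf
  rw [← tsum_neg]
  congr 1
  funext ρ
  unfold wt
  rw [LT_Ao, LT_Ao]
  simp only [map_mul, map_sub, map_neg, Complex.conj_conj]
  ring

/-- the bottom of the form -/
noncomputable def low (a : ℝ) : ℝ :=
  sInf {r : ℝ | ∃ g : ℝ → ℂ, g ∈ Ts a ∧ ∫ x, ‖g x‖ ^ 2 = 1 ∧ r = (Wf g g).re}

lemma exists_bump (ha : 0 < a) : ∃ η : ℝ → ℝ, ContDiff ℝ ∞ η ∧ (∀ x, 0 ≤ η x) ∧ (∀ x, a < |x| → η x = 0) ∧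
    η 0 = 1 := by
  let b : ContDiffBump (0 : ℝ) := ⟨a / 2, a, by positivity, by linarith⟩
  refine ⟨b, b.contDiff, fun x => b.nonneg, fun x hx => ?_, ?_⟩
  · apply b.zero_of_le_dist
    rw [Real.dist_eq, sub_zero]
    exact hx.le
  · apply b.one_of_mem_closedBall
    simp only [Metric.mem_closedBall, dist_self]
    positivity

lemma exists_norm_one (ha : 0 < a) : ∃ g : Ts a, ‖toL a g‖ = 1 := by
  obtain ⟨η, h1, h2, h3, h4⟩ := exists_bump ha
  have hm : (fun x => ((η x : ℝ) : ℂ)) ∈ Ts a :=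
    ⟨Complex.ofRealCLM.contDiff.comp h1, fun x hx => by simp [h3 x hx]⟩
  set g : Ts a := ⟨_, hm⟩ with hg
  have hne : toL a g ≠ 0 := by
    intro h0
    have h5 : ‖toL a g‖ ^ 2 = 0 := by rw [h0]; simp
    rw [norm_toL] at h5
    have hc : Continuous fun x => ‖(g : ℝ → ℂ) x‖ ^ 2 := (Ts.tf g.2).cont.norm.pow 2
    have hcs : HasCompactSupport fun x => ‖(g : ℝ → ℂ) x‖ ^ 2 := by
      exact (Ts.tf g.2).supp.comp_left (g := fun z : ℂ => ‖z‖ ^ 2) (by simp)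
    have h6 : 0 < ∫ x, ‖(g : ℝ → ℂ) x‖ ^ 2 :=
      hc.integral_pos_of_hasCompactSupport_nonneg_nonzero hcs (fun x => by positivity) (x := 0) (by
        show ‖((η 0 : ℝ) : ℂ)‖ ^ 2 ≠ 0
        rw [h4]
        simp)
    linarith
  refine ⟨((‖toL a g‖⁻¹ : ℝ) : ℂ) • g, ?_⟩
  rw [map_smul, norm_smul, Complex.norm_real, Real.norm_of_nonneg (by positivity),
    inv_mul_cancel₀ (norm_ne_zero_iff.mpr hne)]

lemma low_bdd (ha : 0 < a) : BddBelow {r : ℝ | ∃ g : ℝ → ℂ, g ∈ Ts a ∧ ∫ x, ‖g x‖ ^ 2 = 1 ∧ r = (Wf g g).re} := by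
  obtain ⟨C, _, h⟩ := bdd_below ha
  refine ⟨-C, ?_⟩
  rintro _ ⟨g, hg, h1, rfl⟩
  have := h ⟨g, hg⟩
  rw [norm_toL] at this
  simp only [h1, mul_one] at this
  exact this

lemma low_nonempty (ha : 0 < a) :
    {r : ℝ | ∃ g : ℝ → ℂ, g ∈ Ts a ∧ ∫ x, ‖g x‖ ^ 2 = 1 ∧ r = (Wf g g).re}.Nonempty := by
  obtain ⟨g, hg⟩ := exists_norm_one ha
  refine ⟨_, g, g.2, ?_, rfl⟩
  rw [← norm_toL, hg]
  norm_num

lemma Wf_smul_self (c : ℂ) (g : ℝ → ℂ) : Wf (c • g) (c • g) = (‖c‖ ^ 2 : ℝ) * Wf g g := by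
  rw [Wf_smul_left, Wf_smul_right, ← mul_assoc, Complex.mul_conj, Complex.normSq_eq_norm_sq]

lemma low_le (ha : 0 < a) (g : Ts a) : low a * ‖toL a g‖ ^ 2 ≤ (Wf g g).re := by
  rcases eq_or_ne (toL a g) 0 with h0 | h0
  · have h1 : (g : ℝ → ℂ) = 0 := by
      have h2 : ‖toL a g‖ ^ 2 = 0 := by rw [h0]; simp
      rw [norm_toL] at h2
      by_contra hne
      obtain ⟨x, hx⟩ := Function.ne_iff.mp hne
      have hc : Continuous fun x => ‖(g : ℝ → ℂ) x‖ ^ 2 := (Ts.tf g.2).cont.norm.pow 2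
      have hcs : HasCompactSupport fun x => ‖(g : ℝ → ℂ) x‖ ^ 2 := by
        exact (Ts.tf g.2).supp.comp_left (g := fun z : ℂ => ‖z‖ ^ 2) (by simp)
      have h6 : 0 < ∫ x, ‖(g : ℝ → ℂ) x‖ ^ 2 :=
        hc.integral_pos_of_hasCompactSupport_nonneg_nonzero hcs (fun x => by positivity) (x := x) (by
          have : (g : ℝ → ℂ) x ≠ 0 := hx
          positivity)
      linarith
    rw [h0, h1]
    have : Wf (0 : ℝ → ℂ) 0 = 0 := by
      have := Wf_smul_left (f := (0 : ℝ → ℂ)) (h := 0) 0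
      simpa using this
    rw [this]
    simp
  · set t : ℝ := ‖toL a g‖ with ht
    have htp : 0 < t := norm_pos_iff.mpr h0
    have h1 : (Wf ((((t⁻¹ : ℝ) : ℂ)) • (g : ℝ → ℂ)) ((((t⁻¹ : ℝ) : ℂ)) • (g : ℝ → ℂ))).re ∈
        {r : ℝ | ∃ g : ℝ → ℂ, g ∈ Ts a ∧ ∫ x, ‖g x‖ ^ 2 = 1 ∧ r = (Wf g g).re} := by
      refine ⟨_, (Ts a).smul_mem _ g.2, ?_, rfl⟩
      have h2 := norm_toL (((t⁻¹ : ℝ) : ℂ) • g)
      rw [map_smul, norm_smul, Complex.norm_real, Real.norm_of_nonneg (by positivity), ← ht,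
        inv_mul_cancel₀ htp.ne'] at h2
      rw [one_pow] at h2
      exact h2.symm
    have h2 := csInf_le (low_bdd ha) h1
    rw [Wf_smul_self, Complex.re_ofReal_mul, Complex.norm_real, Real.norm_of_nonneg (by positivity)] at h2
    have h3 : low a ≤ t⁻¹ ^ 2 * (Wf g g).re := h2
    have h4 := mul_le_mul_of_nonneg_right h3 (sq_nonneg t)
    have h5 : t⁻¹ ^ 2 * (Wf g g).re * t ^ 2 = (Wf g g).re := by
      field_simp
    rwa [h5] at h4

/-- the shifted form -/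
noncomputable def form (ha : 0 < a) : PF (Ts a) where
  B f g := Wf f g - (low a : ℂ) * inner ℂ (toL a g) (toL a f)
  add_left x y z := by
    rw [map_add, inner_add_right]
    have := Wf_add_left (Ts.tf x.2) (Ts.tf y.2) (Ts.tf z.2)
    simp only [Submodule.coe_add]
    rw [this]
    ring
  smul_left c x z := by
    rw [map_smul, inner_smul_right]
    have := Wf_smul_left (f := (x : ℝ → ℂ)) (h := (z : ℝ → ℂ)) c
    simp only [Submodule.coe_smul]
    rw [this]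
    ring
  symm x y := by
    rw [map_sub, map_mul, Complex.conj_ofReal, inner_conj_symm, Wf_symm (Ts.tf x.2) (Ts.tf y.2)]
  nonneg x := by
    have h1 := low_le ha x
    have h2 : inner ℂ (toL a x) (toL a x) = ((‖toL a x‖ ^ 2 : ℝ) : ℂ) := by
      rw [inner_self_eq_norm_sq_to_K]
      norm_cast
    rw [h2, ← Complex.ofReal_mul, Complex.sub_re, Complex.ofReal_re]
    linarith

lemma form_self (ha : 0 < a) (g : Ts a) :
    ((form ha).B g g).re = (Wf g g).re - low a * ‖toL a g‖ ^ 2 := by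
  have h2 : inner ℂ (toL a g) (toL a g) = ((‖toL a g‖ ^ 2 : ℝ) : ℂ) := by
    rw [inner_self_eq_norm_sq_to_K]
    norm_cast
  show (Wf g g - (low a : ℂ) * inner ℂ (toL a g) (toL a g)).re = _
  rw [h2, ← Complex.ofReal_mul, Complex.sub_re, Complex.ofReal_re]

lemma form_adj (ha : 0 < a) (w : ℂ) (k g : Ts a) :
    (form ha).B (Ao a w k) g = -(form ha).B k (Ao a (-conj w) g) := by
  show Wf (Ao a w k) g - (low a : ℂ) * inner ℂ (toL a g) (toL a (Ao a w k)) =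
    -(Wf k (Ao a (-conj w) g) - (low a : ℂ) * inner ℂ (toL a (Ao a (-conj w) g)) (toL a k))
  rw [Wf_adj, inner_adj]
  ring

/-- the lower bound off the critical line -/
lemma bn_inv (ha : 0 < a) (w : ℂ) (k : Ts a) : |w.re| * (form ha).bn k ≤ (form ha).bn (Ao a w k) := by
  set P := form ha
  have h1 : Ao a w k = Ao a (w.im * I) k + (-(w.re : ℂ)) • k := by
    rw [Ao_eq w (w.im * I) k]
    congr 2
    linear_combination (Complex.re_add_im w)
  have h2 : P.B (Ao a (w.im * I) k) k = -P.B k (Ao a (w.im * I) k) := by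
    have := form_adj ha (w.im * I) k k
    rw [this]
    congr 3
    simp
  have h3 : (P.B (Ao a w k) (Ao a w k)).re =
      (P.B (Ao a (w.im * I) k) (Ao a (w.im * I) k)).re + w.re ^ 2 * (P.B k k).re := by
    rw [h1, P.add_left, P.add_right, P.add_right, P.smul_left, P.smul_left, P.smul_right, P.smul_right, h2]
    simp only [map_neg, Complex.conj_ofReal]
    have e : P.B (Ao a (w.im * I) k) (Ao a (w.im * I) k) + -(w.re : ℂ) * -P.B k (Ao a (w.im * I) k) +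
        (-(w.re : ℂ) * P.B k (Ao a (w.im * I) k) + -(w.re : ℂ) * (-(w.re : ℂ) * P.B k k)) =
        P.B (Ao a (w.im * I) k) (Ao a (w.im * I) k) + ((w.re ^ 2 : ℝ) : ℂ) * P.B k k := by
      push_cast
      ring
    rw [e, Complex.add_re, Complex.re_ofReal_mul]
  have h4 : (|w.re| * P.bn k) ^ 2 ≤ P.bn (Ao a w k) ^ 2 := by
    rw [mul_pow, sq_abs, P.bn_sq, P.bn_sq, h3]
    have := P.nonneg (Ao a (w.im * I) k)
    linarith
  exact (pow_le_pow_iff_left₀ (mul_nonneg (abs_nonneg _) (P.bn_nonneg _)) (P.bn_nonneg _) (by norm_num)).mp h4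

/-- the bound by the first derivative -/
lemma bn_h1 (ha : 0 < a) (w : ℂ) : ∃ C : ℝ, 0 ≤ C ∧ ∀ k : Ts a, (form ha).bn k ≤ C * ‖toL a (Ao a w k)‖ := by
  obtain ⟨C1, hC1, h1⟩ := inv_bound ha w
  set K : ℝ := Real.sqrt (2 * a) * Real.exp (1 * a) with hK
  have hK0 : 0 ≤ K := by positivity
  -- bound of the transform
  have h2 : ∀ (k : Ts a) (z : ℂ), |z.re| ≤ 1 → (1 + |z.im - w.im|) * ‖LT k z‖ ≤
      K * (1 + C1) * ‖toL a (Ao a w k)‖ := by
    intro k z hz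
    have e1 := ev_bound ha hz (toL a k)
    have e2 := ev_bound ha hz (toL a (Ao a w k))
    rw [ev_toL] at e1 e2
    rw [LT_Ao, norm_mul] at e2
    have e3 : |z.im - w.im| ≤ ‖z - w‖ := by
      have := Complex.abs_im_le_norm (z - w)
      rwa [Complex.sub_im] at this
    have e4 : |z.im - w.im| * ‖LT k z‖ ≤ ‖z - w‖ * ‖LT k z‖ := mul_le_mul_of_nonneg_right e3 (norm_nonneg _)
    have e5 : K * ‖toL a k‖ ≤ K * (C1 * ‖toL a (Ao a w k)‖) := mul_le_mul_of_nonneg_left (h1 k) hK0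
    nlinarith
  set Q : ℝ := K * (1 + C1) with hQ
  have hQ0 : 0 ≤ Q := by positivity
  have hs := cfg_zeta.sum 2 (by norm_num)
  set S : ℝ := ∑' ρ : Zr, mm ρ / (1 + |(zz ρ).im|) ^ (2 : ℝ) with hS
  have hS0 : 0 ≤ S := tsum_nonneg fun ρ => div_nonneg (cfg_zeta.m_nonneg ρ) (by positivity)
  -- bound of the form
  have h3 : ∀ k : Ts a, ‖Wf k k‖ ≤ (1 + |w.im|) ^ 2 * Q ^ 2 * S * ‖toL a (Ao a w k)‖ ^ 2 := by
    intro k
    have h4 : ∀ ρ : Zr, ‖wt k k ρ‖ ≤ (1 + |w.im|) ^ 2 * Q ^ 2 * ‖toL a (Ao a w k)‖ ^ 2 *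
        (mm ρ / (1 + |(zz ρ).im|) ^ (2 : ℝ)) := by
      intro ρ
      have hre : |(zz ρ).re| ≤ 1 := by
        have : (zz ρ).re = (ρ : ℂ).re - 1 / 2 := by simp [zz]
        rw [this, abs_le]
        constructor <;> linarith [ρ.2.2.1, ρ.2.2.2]
      have b1 := h2 k (zz ρ) hre
      have b2 := h2 k (-conj (zz ρ)) (by simpa using hre)
      have e1 : (-conj (zz ρ)).im = (zz ρ).im := by simp
      rw [e1] at b2
      unfold wt
      have hm : 0 ≤ mm ρ := cfg_zeta.m_nonneg ρ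
      rw [norm_mul, Complex.norm_real, Real.norm_of_nonneg hm, norm_mul, Complex.norm_conj]
      set y := (zz ρ).im
      have h5 : (1 + |y|) ≤ (1 + |w.im|) * (1 + |y - w.im|) := by
        have : |y| ≤ |y - w.im| + |w.im| := by
          have := abs_add_le (y - w.im) w.im
          rwa [sub_add_cancel] at this
        nlinarith [abs_nonneg (y - w.im), abs_nonneg w.im]
      have h6 : (1 + |y|) ^ (2 : ℝ) = (1 + |y|) ^ 2 := by norm_cast
      rw [h6]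
      have h7 : (‖LT k (zz ρ)‖ * ‖LT k (-conj (zz ρ))‖) * (1 + |y|) ^ 2 ≤
          (1 + |w.im|) ^ 2 * Q ^ 2 * ‖toL a (Ao a w k)‖ ^ 2 := by
        have h8 : (1 + |y|) ^ 2 ≤ ((1 + |w.im|) * (1 + |y - w.im|)) ^ 2 :=
          pow_le_pow_left₀ (by positivity) h5 2
        have h9 : ((1 + |y - w.im|) * ‖LT k (zz ρ)‖) * ((1 + |y - w.im|) * ‖LT k (-conj (zz ρ))‖) ≤
            (Q * ‖toL a (Ao a w k)‖) * (Q * ‖toL a (Ao a w k)‖) :=
          mul_le_mul b1 b2 (by positivity) (by positivity)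
        calc (‖LT k (zz ρ)‖ * ‖LT k (-conj (zz ρ))‖) * (1 + |y|) ^ 2
            ≤ (‖LT k (zz ρ)‖ * ‖LT k (-conj (zz ρ))‖) * ((1 + |w.im|) * (1 + |y - w.im|)) ^ 2 :=
              mul_le_mul_of_nonneg_left h8 (by positivity)
          _ = (1 + |w.im|) ^ 2 * (((1 + |y - w.im|) * ‖LT k (zz ρ)‖) *
              ((1 + |y - w.im|) * ‖LT k (-conj (zz ρ))‖)) := by ring
          _ ≤ (1 + |w.im|) ^ 2 * ((Q * ‖toL a (Ao a w k)‖) * (Q * ‖toL a (Ao a w k)‖)) :=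
              mul_le_mul_of_nonneg_left h9 (by positivity)
          _ = _ := by ring
      have hp : 0 < (1 + |y|) ^ 2 := by positivity
      rw [← mul_div_assoc, le_div_iff₀ hp]
      calc mm ρ * (‖LT k (zz ρ)‖ * ‖LT k (-conj (zz ρ))‖) * (1 + |y|) ^ 2
          = mm ρ * ((‖LT k (zz ρ)‖ * ‖LT k (-conj (zz ρ))‖) * (1 + |y|) ^ 2) := by ring
        _ ≤ mm ρ * ((1 + |w.im|) ^ 2 * Q ^ 2 * ‖toL a (Ao a w k)‖ ^ 2) := mul_le_mul_of_nonneg_left h7 hm
        _ = _ := by ring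
    have h5 := tsum_of_norm_bounded (hs.hasSum.mul_left ((1 + |w.im|) ^ 2 * Q ^ 2 * ‖toL a (Ao a w k)‖ ^ 2)) h4
    refine h5.trans (le_of_eq ?_)
    rw [← hS]
    ring
  refine ⟨Real.sqrt ((1 + |w.im|) ^ 2 * Q ^ 2 * S + |low a| * C1 ^ 2), Real.sqrt_nonneg _, fun k => ?_⟩
  have h6 : (form ha).bn k ^ 2 ≤
      (Real.sqrt ((1 + |w.im|) ^ 2 * Q ^ 2 * S + |low a| * C1 ^ 2) * ‖toL a (Ao a w k)‖) ^ 2 := by
    rw [mul_pow, Real.sq_sqrt (by positivity), (form ha).bn_sq, form_self]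
    have e1 : (Wf k k).re ≤ (1 + |w.im|) ^ 2 * Q ^ 2 * S * ‖toL a (Ao a w k)‖ ^ 2 :=
      (Complex.re_le_norm _).trans (h3 k)
    have e2 : ‖toL a k‖ ^ 2 ≤ C1 ^ 2 * ‖toL a (Ao a w k)‖ ^ 2 := by
      rw [← mul_pow]
      exact pow_le_pow_left₀ (norm_nonneg _) (h1 k) 2
    have e3 : -(low a * ‖toL a k‖ ^ 2) ≤ |low a| * (C1 ^ 2 * ‖toL a (Ao a w k)‖ ^ 2) := by
      have e4 : -low a ≤ |low a| := neg_le_abs _
      have e5 : -low a * ‖toL a k‖ ^ 2 ≤ |low a| * ‖toL a k‖ ^ 2 := mul_le_mul_of_nonneg_right e4 (sq_nonneg _)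
      have e6 : |low a| * ‖toL a k‖ ^ 2 ≤ |low a| * (C1 ^ 2 * ‖toL a (Ao a w k)‖ ^ 2) :=
        mul_le_mul_of_nonneg_left e2 (abs_nonneg _)
      linarith
    linarith
  exact (pow_le_pow_iff_left₀ ((form ha).bn_nonneg _) (by positivity) (by norm_num)).mp h6

end Pool.Agent.Helper61.W.GS
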