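import Pool.Agent.Helper61.GS.Dn
import Pool.Agent.Helper61.GS.Se

set_option autoImplicit false

/-!
# Ground states as functions
-/

namespace Pool.Agent.Helper61.W.GS

open Complex Filter Topology Set MeasureTheory
open scoped ComplexConjugate ContDiff Polynomial
open Pool.Agent.V11271.LI (Zr mm cfg_zeta zz mm_one_le)

variable {a : ℝ}

/-- the transform of a function supported in `[-a, a]` -/
lemma ev_of {φ : ℝ → ℂ} (hm : MemLp φ 2 (volume : Measure ℝ)) (h0 : ∀ x, a < |x| → φ x = 0) (z : ℂ) :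
    ev a z (hm.toLp φ) = ∫ x : ℝ, φ x * cexp (z * x) := by
  rw [ev_eq_int]
  apply integral_congr_ae
  filter_upwards [hm.coeFn_toLp] with x hx
  rw [hx]
  unfold ct
  by_cases h : x ∈ Icc (-a) a
  · rw [indicator_of_mem h, mul_comm]
  · rw [indicator_of_notMem h, zero_mul, h0 x, zero_mul]
    by_contra hlt
    push Not at hlt
    exact h ⟨(abs_le.mp hlt).1, (abs_le.mp hlt).2⟩

/-- ground states as functions -/
def IsG (a : ℝ) (φ : ℝ → ℂ) : Prop :=
  MemLp φ 2 (volume : Measure ℝ) ∧ (∀ x, a < |x| → φ x = 0) ∧ 0 < ∫ x, ‖φ x‖ ^ 2 ∧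
    ∃ g : ℕ → ℝ → ℂ, (∀ n, g n ∈ Ts a) ∧ Tendsto (fun n => ∫ x, ‖g n x - φ x‖ ^ 2) atTop (𝓝 0) ∧
      Tendsto (fun n => (Wf (g n) (g n)).re) atTop (𝓝 (low a * ∫ x, ‖φ x‖ ^ 2))

lemma toLp_sub_norm {φ : ℝ → ℂ} (hm : MemLp φ 2 (volume : Measure ℝ)) (g : Ts a) :
    ‖toL a g - hm.toLp φ‖ ^ 2 = ∫ x, ‖(g : ℝ → ℂ) x - φ x‖ ^ 2 := by
  have e : toL a g - hm.toLp φ = ((Ts.memLp g.2).sub hm).toLp ((g : ℝ → ℂ) - φ) :=
    (MemLp.toLp_sub (Ts.memLp g.2) hm).symm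
  rw [e, norm_toLp_sq]
  rfl

lemma IsG.mem (ha : 0 < a) {φ : ℝ → ℂ} (h : IsG a φ) : h.1.toLp φ ∈ E ha ∧ h.1.toLp φ ≠ 0 := by
  obtain ⟨hm, h0, hp, g, hg, h1, h2⟩ := h
  have hn : ‖hm.toLp φ‖ ^ 2 = ∫ x, ‖φ x‖ ^ 2 := norm_toLp_sq hm
  have hlim : Tendsto (fun n => toL a ⟨g n, hg n⟩) atTop (𝓝 (hm.toLp φ)) := by
    rw [tendsto_iff_norm_sub_tendsto_zero]
    have h3 : Tendsto (fun n => Real.sqrt (∫ x, ‖g n x - φ x‖ ^ 2)) atTop (𝓝 0) := by
      have := h1.sqrt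
      rwa [Real.sqrt_zero] at this
    refine h3.congr fun n => ?_
    have := toLp_sub_norm hm ⟨g n, hg n⟩
    simp only at this
    rw [← this, Real.sqrt_sq (norm_nonneg _)]
  refine ⟨⟨fun n => ⟨g n, hg n⟩, hlim, ?_⟩, ?_⟩
  · have h3 : Tendsto (fun n => (form ha).bn ⟨g n, hg n⟩ ^ 2) atTop (𝓝 0) := by
      have h4 := h2.sub ((hlim.norm.pow 2).const_mul (low a))
      rw [hn, sub_self] at h4
      refine h4.congr fun n => ?_
      rw [(form ha).bn_sq, form_self]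
    have h4 := h3.sqrt
    rw [Real.sqrt_zero] at h4
    refine h4.congr fun n => ?_
    rw [Real.sqrt_sq ((form ha).bn_nonneg _)]
  · intro h3
    rw [h3, norm_zero] at hn
    simp at hn
    rw [← hn] at hp
    exact lt_irrefl _ hp

/-- the elements of the space are represented by ground states -/
lemma exists_IsG (ha : 0 < a) {φ : HL} (h : φ ∈ E ha) (hne : φ ≠ 0) :
    ∃ f : ℝ → ℂ, IsG a f ∧ ∀ z, ∫ x : ℝ, f x * cexp (z * x) = ev a z φ := by
  obtain ⟨G, h1, h2⟩ := h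
  have hmφ := Lp.memLp φ
  -- the values outside the interval vanish
  have hout : ∫ x in (Icc (-a) a)ᶜ, ‖(φ : ℝ → ℂ) x‖ ^ 2 = 0 := by
    have hle : ∀ n, ∫ x in (Icc (-a) a)ᶜ, ‖(φ : ℝ → ℂ) x‖ ^ 2 ≤ ‖toL a (G n) - φ‖ ^ 2 := by
      intro n
      have e1 : ‖toL a (G n) - φ‖ ^ 2 = ∫ x, ‖((G n : Ts a) : ℝ → ℂ) x - (φ : ℝ → ℂ) x‖ ^ 2 := by
        have := toLp_sub_norm hmφ (G n)
        rwa [Lp.toLp_coeFn] at this
      rw [e1]
      have hi : Integrable fun x => ‖((G n : Ts a) : ℝ → ℂ) x - (φ : ℝ → ℂ) x‖ ^ 2 :=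
        ((Ts.memLp (G n).2).sub hmφ).integrable_norm_pow (by norm_num)
      have e2 : ∫ x in (Icc (-a) a)ᶜ, ‖(φ : ℝ → ℂ) x‖ ^ 2 =
          ∫ x in (Icc (-a) a)ᶜ, ‖((G n : Ts a) : ℝ → ℂ) x - (φ : ℝ → ℂ) x‖ ^ 2 := by
        apply setIntegral_congr_fun measurableSet_Icc.compl
        intro x hx
        simp only
        rw [(G n).2.2 x, zero_sub, norm_neg]
        by_contra hlt
        push Not at hlt
        exact hx ⟨(abs_le.mp hlt).1, (abs_le.mp hlt).2⟩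
      rw [e2]
      exact setIntegral_le_integral hi (Eventually.of_forall fun x => by positivity)
    have hl : Tendsto (fun n => ‖toL a (G n) - φ‖ ^ 2) atTop (𝓝 0) := by
      have := (tendsto_iff_norm_sub_tendsto_zero.mp h1).pow 2
      simpa using this
    refine le_antisymm (ge_of_tendsto' hl hle) ?_
    exact integral_nonneg fun x => by positivity
  have hae : ∀ᵐ x, x ∈ (Icc (-a) a)ᶜ → (φ : ℝ → ℂ) x = 0 := by
    have hi : IntegrableOn (fun x => ‖(φ : ℝ → ℂ) x‖ ^ 2) (Icc (-a) a)ᶜ :=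
      (hmφ.integrable_norm_pow (by norm_num)).integrableOn
    rw [setIntegral_eq_zero_iff_of_nonneg_ae (Eventually.of_forall fun x => by positivity) hi] at hout
    have h3 := (ae_restrict_iff' measurableSet_Icc.compl).mp hout
    filter_upwards [h3] with x hx hx2
    have := hx hx2
    simpa using this
  set f : ℝ → ℂ := indicator (Icc (-a) a) (φ : ℝ → ℂ) with hf
  have hfe : f =ᵐ[volume] (φ : ℝ → ℂ) := by
    filter_upwards [hae] with x hx
    by_cases hm : x ∈ Icc (-a) a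
    · rw [hf, indicator_of_mem hm]
    · rw [hf, indicator_of_notMem hm, hx hm]
  have hmf : MemLp f 2 (volume : Measure ℝ) := (memLp_congr_ae hfe).mpr hmφ
  have hLp : hmf.toLp f = φ := by
    rw [← Lp.toLp_coeFn φ hmφ]
    exact (MemLp.toLp_eq_toLp_iff hmf hmφ).mpr hfe
  have hn : ∫ x, ‖f x‖ ^ 2 = ‖φ‖ ^ 2 := by
    rw [← norm_toLp_sq hmf, hLp]
  have h0 : ∀ x, a < |x| → f x = 0 := by
    intro x hx
    rw [hf, indicator_of_notMem]
    intro hm
    have := abs_le.mpr ⟨hm.1, hm.2⟩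
    linarith
  refine ⟨f, ⟨hmf, h0, ?_, fun n => G n, fun n => (G n).2, ?_, ?_⟩, fun z => ?_⟩
  · rw [hn]
    have := norm_pos_iff.mpr hne
    positivity
  · have hl : Tendsto (fun n => ‖toL a (G n) - φ‖ ^ 2) atTop (𝓝 0) := by
      have := (tendsto_iff_norm_sub_tendsto_zero.mp h1).pow 2
      simpa using this
    refine hl.congr fun n => ?_
    have := toLp_sub_norm hmf (G n)
    rw [hLp] at this
    exact this
  · have h3 := (h2.pow 2).add ((h1.norm.pow 2).const_mul (low a))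
    rw [hn]
    have e : (0 : ℝ) ^ 2 + low a * ‖φ‖ ^ 2 = low a * ‖φ‖ ^ 2 := by ring
    rw [e] at h3
    refine h3.congr fun n => ?_
    rw [(form ha).bn_sq, form_self]
    ring
  · rw [← ev_of hmf h0 z, hLp]

end Pool.Agent.Helper61.W.GS
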