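import Pool.Agent.Helper61.GS.Fm
import Pool.Agent.Helper61.W.Sc
import Pool.Agent.Helper61.W.Fu2

set_option autoImplicit false

/-!
# Lower bound of Weil's form
-/

namespace Pool.Agent.Helper61.W.GS

open Filter Topology Set MeasureTheory Polynomial
open scoped ComplexConjugate ContDiff
open Pool.Agent.V11271.LI (Zr mm cfg_zeta zz)

variable {a : ℝ} {g : ℝ → ℂ}

lemma energy_gap {f : ℝ → ℝ} (hf : T1 f) (N : ℕ) : ∃ p ∈ degreeLT ℝ N,
    Hn N * ip (fun s => f s - p.eval s) (fun s => f s - p.eval s) ≤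
      ∫ v in (0 : ℝ)..2, (Au f 0 - Au f v) / v := by
  obtain ⟨p, hp, hperp⟩ := exists_proj N hf.cont
  refine ⟨p, hp, ?_⟩
  set h : ℝ → ℝ := fun s => f s - p.eval s with hh
  have hhC : ContDiff ℝ 1 h := hf.c1.sub (contDiff_eval p)
  have hfe1 : f = fun s => 1 * p.eval s + h s := by
    funext s
    simp only [hh]
    ring
  have hA := fact_A hf (τ := fun _ => 0) continuous_const (fun s h1 h2 => by
    have : Real.log (1 - s ^ 2) ≤ 0 := Real.log_nonpos (by nlinarith) (by nlinarith [sq_nonneg s])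
    linarith)
  have hph2 : ip h (fun s => (Slin p).eval s) = 0 := by
    rw [ip_comm]
    exact hperp _ (Slin_mem hp)
  have hE : E2 f f = E2 (fun s => p.eval s) (fun s => p.eval s) + E2 h h := by
    conv_lhs => rw [hfe1]
    rw [E2_comb (contDiff_eval p) hhC]
    have e2 : E2 (fun s => p.eval s) h = 2 * ip h (fun s => (Slin p).eval s) := E2_poly hhC p
    rw [e2, hph2]
    ring
  have hgap := spec_gap N hhC hperp
  have h1 := E2_nonneg (fun s => p.eval s)
  have h2 : 0 ≤ ∫ s, f s ^ 2 * (Real.log 4 + 0) ∂mu1 := by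
    apply integral_nonneg
    intro s
    have : 0 ≤ Real.log 4 := Real.log_nonneg (by norm_num)
    simp only [Pi.zero_apply, add_zero]
    positivity
  rw [hE] at hA
  linarith

/-- the scaled function -/
noncomputable def sc (a : ℝ) (g : ℝ → ℂ) (s : ℝ) : ℂ := g (a * s)

lemma Ts.zero_of_le (ha : 0 < a) (hg : g ∈ Ts a) {x : ℝ} (hx : a ≤ |x|) : g x = 0 := by
  have hc : Continuous g := hg.1.continuous
  have h1 : Tendsto (fun t : ℝ => g (x * t)) (𝓝[>] 1) (𝓝 (g (x * 1))) :=
    ((hc.comp (continuous_const.mul continuous_id)).tendsto 1).mono_left nhdsWithin_le_nhds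
  rw [mul_one] at h1
  have h2 : Tendsto (fun t : ℝ => g (x * t)) (𝓝[>] 1) (𝓝 0) := by
    apply Tendsto.congr' _ tendsto_const_nhds
    filter_upwards [self_mem_nhdsWithin] with t ht
    have ht' : (1 : ℝ) < t := ht
    rw [hg.2]
    rw [abs_mul, abs_of_pos (by linarith : 0 < t)]
    nlinarith
  exact tendsto_nhds_unique h1 h2

lemma sc_T1 (ha : 0 < a) (hg : g ∈ Ts a) :
    T1 (fun s => (sc a g s).re) ∧ T1 (fun s => (sc a g s).im) := by
  have hz : ∀ s : ℝ, 1 ≤ |s| → sc a g s = 0 := by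
    intro s h1
    unfold sc
    apply Ts.zero_of_le ha hg
    rw [abs_mul, abs_of_pos ha]
    nlinarith
  have hc : ContDiff ℝ 1 (sc a g) := by
    have h1 : ContDiff ℝ 1 g := hg.1.of_le (by exact_mod_cast le_top)
    exact h1.comp (by fun_prop)
  exact ⟨⟨Complex.reCLM.contDiff.comp hc, fun s h => by
      show (sc a g s).re = 0
      rw [hz s h]
      rfl⟩,
    ⟨Complex.imCLM.contDiff.comp hc, fun s h => by
      show (sc a g s).im = 0
      rw [hz s h]
      rfl⟩⟩

/-- the autocorrelation in the scaled variable -/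
noncomputable def Fa (a : ℝ) (g : ℝ → ℂ) (v : ℝ) : ℝ :=
  Au (fun s => (sc a g s).re) v + Au (fun s => (sc a g s).im) v

lemma corr_re' (ha : 0 < a) (h : TF g) (u : ℝ) : (corr g u).re = a * Fa a g (u / a) := by
  have hi : ∀ u, Integrable (fun y => g y * conj (g (y - u))) := fun u =>
    h.mul_cont (f := fun y => conj (g (y - u))) (by
      have := h.cont
      exact Complex.continuous_conj.comp (this.comp (continuous_id.sub continuous_const)))
  have h1 : (corr g u).re = ∫ y, (g y * conj (g (y - u))).re := by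
    unfold corr
    exact (integral_re (hi u)).symm
  have h2 : ∫ y, (g y * conj (g (y - u))).re = a * ∫ s, (g (a * s) * conj (g (a * s - u))).re := by
    have e1 := Measure.integral_comp_mul_left (fun y => (g y * conj (g (y - u))).re) a
    rw [e1, abs_of_pos (inv_pos.mpr ha), smul_eq_mul, ← mul_assoc, mul_inv_cancel₀ ha.ne', one_mul]
  have hc := h.cont
  have cG : Continuous (sc a g) := by
    unfold sc
    fun_prop
  have hcs : HasCompactSupport (sc a g) := h.supp.comp_homeomorph (Homeomorph.mulLeft₀ a ha.ne')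
  have j1 : Integrable (fun s => (sc a g s).re * (sc a g (s - u / a)).re) := by
    apply Continuous.integrable_of_hasCompactSupport
    · exact (Complex.continuous_re.comp cG).mul (Complex.continuous_re.comp (cG.comp (by fun_prop)))
    · exact HasCompactSupport.mul_right (hcs.comp_left (g := Complex.re) rfl)
  have j2 : Integrable (fun s => (sc a g s).im * (sc a g (s - u / a)).im) := by
    apply Continuous.integrable_of_hasCompactSupport
    · exact (Complex.continuous_im.comp cG).mul (Complex.continuous_im.comp (cG.comp (by fun_prop)))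
    · exact HasCompactSupport.mul_right (hcs.comp_left (g := Complex.im) rfl)
  rw [h1, h2]
  unfold Fa Au
  rw [← integral_add j1 j2]
  congr 2
  funext s
  unfold sc
  have e : a * (s - u / a) = a * s - u := by
    field_simp
  rw [e, Complex.mul_re, Complex.conj_re, Complex.conj_im]
  ring

lemma Fa_zero (ha : 0 < a) (h : TF g) : a * Fa a g 0 = ∫ x, ‖g x‖ ^ 2 := by
  have := corr_re' ha h 0
  rw [zero_div, corr_zero, Complex.ofReal_re] at this
  exact this.symm

lemma Fa_bound (ha : 0 < a) (hg : g ∈ Ts a) (v : ℝ) : |Fa a g v| ≤ Fa a g 0 := by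
  obtain ⟨t1, t2⟩ := sc_T1 ha hg
  unfold Fa
  exact (abs_add_le _ _).trans (add_le_add (Au_bound t1 v) (Au_bound t2 v))

lemma Fa_van (ha : 0 < a) (hg : g ∈ Ts a) {v : ℝ} (hv : 2 ≤ v) : Fa a g v = 0 := by
  obtain ⟨t1, t2⟩ := sc_T1 ha hg
  unfold Fa
  rw [Au_van t1 hv, Au_van t2 hv, add_zero]

lemma Fa_cont (ha : 0 < a) (hg : g ∈ Ts a) : Continuous (Fa a g) := by
  obtain ⟨t1, t2⟩ := sc_T1 ha hg
  exact (Au_cont t1).add (Au_cont t2)

lemma JJ_gen (ha : 0 < a) (hg : g ∈ Ts a) :
    JJ (fun u => (corr g u).re) = a * ((∫ v in (0 : ℝ)..2, (Fa a g 0 - Fa a g v) / v) -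
      (Real.eulerMascheroniConstant + Real.log Real.pi + Real.log (4 * a)) * Fa a g 0 +
      ∫ v in (0 : ℝ)..2, Fa a g v * kap a v) -
      ∑' n : ℕ, 2 * (ArithmeticFunction.vonMangoldt n / Real.sqrt n) * (a * Fa a g (Real.log n / a)) := by
  obtain ⟨t1, t2⟩ := sc_T1 ha hg
  obtain ⟨L1, _, hL1⟩ := Au_lip t1
  obtain ⟨L2, _, hL2⟩ := Au_lip t2
  have hK : ∀ v, 0 ≤ v → v ≤ 2 → |Fa a g 0 - Fa a g v| ≤ (L1 + L2) * v := by
    intro v hv _
    have a1 := hL1 0 v
    have a2 := hL2 0 v
    rw [zero_sub, abs_neg, abs_of_nonneg hv] at a1 a2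
    have e : Fa a g 0 - Fa a g v = (Au (fun s => (sc a g s).re) 0 - Au (fun s => (sc a g s).re) v) +
        (Au (fun s => (sc a g s).im) 0 - Au (fun s => (sc a g s).im) v) := by
      unfold Fa
      ring
    rw [e]
    refine (abs_add_le _ _).trans ?_
    linarith
  have harch := arch_scale ha (Fa_cont ha hg) hK (fun v hv => Fa_van ha hg hv)
  unfold JJ
  have e0 : ∀ u, (corr g u).re = a * Fa a g (u / a) := fun u => corr_re' ha (Ts.tf hg) u
  simp_rw [e0]
  rw [harch]

lemma prime_bound (ha : 0 < a) : ∃ C : ℝ, 0 ≤ C ∧ ∀ g ∈ Ts a,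
    |∑' n : ℕ, 2 * (ArithmeticFunction.vonMangoldt n / Real.sqrt n) * (a * Fa a g (Real.log n / a))| ≤
      C * (a * Fa a g 0) := by
  obtain ⟨M, hM⟩ := exists_nat_gt (Real.exp (2 * a))
  refine ⟨∑ n ∈ Finset.range M, 2 * (ArithmeticFunction.vonMangoldt n / Real.sqrt n),
    Finset.sum_nonneg fun n _ => by
      have : 0 ≤ ArithmeticFunction.vonMangoldt n := ArithmeticFunction.vonMangoldt_nonneg
      positivity, fun g hg => ?_⟩
  rw [tsum_eq_sum (s := Finset.range M), Finset.sum_mul]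
  · refine (Finset.abs_sum_le_sum_abs _ _).trans (Finset.sum_le_sum fun n _ => ?_)
    have h1 : 0 ≤ ArithmeticFunction.vonMangoldt n := ArithmeticFunction.vonMangoldt_nonneg
    rw [abs_mul, abs_of_nonneg (by positivity : 0 ≤ 2 * (ArithmeticFunction.vonMangoldt n / Real.sqrt n)),
      abs_mul, abs_of_pos ha]
    have h2 := Fa_bound ha hg (Real.log n / a)
    have h3 : 0 ≤ 2 * (ArithmeticFunction.vonMangoldt n / Real.sqrt n) := by positivity
    exact mul_le_mul_of_nonneg_left (mul_le_mul_of_nonneg_left h2 ha.le) h3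
  · intro n hn
    rw [Finset.mem_range, not_lt] at hn
    have h1 : Real.exp (2 * a) ≤ n := hM.le.trans (by exact_mod_cast hn)
    have h2 : 2 * a ≤ Real.log n := by
      rw [Real.le_log_iff_exp_le (lt_of_lt_of_le (Real.exp_pos _) h1)]
      exact h1
    rw [Fa_van ha hg (by rw [le_div_iff₀ ha]; exact h2)]
    ring

theorem weil_lower (ha : 0 < a) : ∃ C : ℝ, 0 ≤ C ∧ ∀ g ∈ Ts a, ∀ N : ℕ,
    ∃ p ∈ degreeLT ℝ N, ∃ q ∈ degreeLT ℝ N,
      a * (Hn N * (ip (fun s => (sc a g s).re - p.eval s) (fun s => (sc a g s).re - p.eval s) +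
        ip (fun s => (sc a g s).im - q.eval s) (fun s => (sc a g s).im - q.eval s))) ≤
      (Wf g g).re + C * ∫ x, ‖g x‖ ^ 2 := by
  obtain ⟨Cp, hCp, hp⟩ := prime_bound ha
  set B : ℝ := 2 * a * Real.exp a + 2 * a with hB
  have hB0 : 0 ≤ B := by positivity
  set D : ℝ := Real.eulerMascheroniConstant + Real.log Real.pi + Real.log (4 * a) with hD
  refine ⟨Cp + 2 * B + |D|, by positivity, fun g hg N => ?_⟩
  obtain ⟨t1, t2⟩ := sc_T1 ha hg
  obtain ⟨p, hp1, hp2⟩ := energy_gap t1 N
  obtain ⟨q, hq1, hq2⟩ := energy_gap t2 N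
  refine ⟨p, hp1, q, hq1, ?_⟩
  rw [Wf_self (Ts.tf hg), Complex.ofReal_re, JJ_gen ha hg, ← Fa_zero ha (Ts.tf hg)]
  have h0 : 0 ≤ Fa a g 0 := (abs_nonneg _).trans (Fa_bound ha hg 0)
  have hpr := abs_le.mp (hp g hg)
  -- kernel
  have hk : |∫ v in (0 : ℝ)..2, Fa a g v * kap a v| ≤ Fa a g 0 * B * |2 - 0| := by
    have := intervalIntegral.norm_integral_le_of_norm_le_const (a := (0 : ℝ)) (b := 2)
      (f := fun v => Fa a g v * kap a v) (C := Fa a g 0 * B) (fun v hv => by
        rw [uIoc_of_le (by norm_num)] at hv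
        rw [Real.norm_eq_abs, abs_mul]
        exact mul_le_mul (Fa_bound ha hg v) (kap_bound ha hv.1 hv.2) (abs_nonneg _) h0)
    simpa using this
  rw [sub_zero, abs_of_pos (by norm_num : (0 : ℝ) < 2)] at hk
  have hk' := abs_le.mp hk
  have hd : D * Fa a g 0 ≤ |D| * Fa a g 0 := mul_le_mul_of_nonneg_right (le_abs_self D) h0
  -- energy
  have hint : ∫ v in (0 : ℝ)..2, (Fa a g 0 - Fa a g v) / v =
      (∫ v in (0 : ℝ)..2, (Au (fun s => (sc a g s).re) 0 - Au (fun s => (sc a g s).re) v) / v) +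
      ∫ v in (0 : ℝ)..2, (Au (fun s => (sc a g s).im) 0 - Au (fun s => (sc a g s).im) v) / v := by
    have hi : ∀ f : ℝ → ℝ, T1 f → IntervalIntegrable (fun v => (Au f 0 - Au f v) / v) volume 0 2 := by
      intro f hf
      obtain ⟨L, hL0, hL⟩ := Au_lip hf
      have hc := (Au_cont hf).measurable
      apply ii_bdd (C := L) (by norm_num) (by fun_prop)
      intro v hv _
      rw [abs_div, abs_of_pos hv, div_le_iff₀ hv]
      have := hL 0 v
      rwa [zero_sub, abs_neg, abs_of_pos hv] at this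
    rw [← intervalIntegral.integral_add (hi _ t1) (hi _ t2)]
    congr 1
    funext v
    unfold Fa
    ring
  rw [hint]
  have e1 := mul_le_mul_of_nonneg_left hp2 ha.le
  have e2 := mul_le_mul_of_nonneg_left hq2 ha.le
  nlinarith [mul_le_mul_of_nonneg_left hd ha.le, mul_le_mul_of_nonneg_left hk'.1 ha.le]

end Pool.Agent.Helper61.W.GS
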