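import Pool.Agent.Helper61.GS.Rh

set_option autoImplicit false

/-!
# If the Riemann hypothesis fails, the lowest eigenvalue is unbounded
-/

namespace Pool.Agent.Helper61.W.GS

open Complex Filter Topology Set MeasureTheory
open scoped ComplexConjugate ContDiff
open Pool.Agent.V11271.LI (Zr mm cfg_zeta zz mm_one_le)

variable {a : ℝ}

instance : Countable Zr := by
  have hs := cfg_zeta.sum 2 (by norm_num)
  have h := hs.countable_support
  have e : Function.support (fun ρ : Zr => mm ρ / (1 + |(zz ρ).im|) ^ (2 : ℝ)) = univ := by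
    rw [eq_univ_iff_forall]
    intro ρ
    have : 0 < mm ρ / (1 + |(zz ρ).im|) ^ (2 : ℝ) := div_pos (by linarith [mm_one_le ρ]) (by positivity)
    exact this.ne'
  rw [e] at h
  exact countable_univ_iff.mp h

lemma fin_im (T : ℝ) : {ρ : Zr | |(zz ρ).im| ≤ T}.Finite := by
  have hs := (cfg_zeta.sum 2 (by norm_num)).tendsto_cofinite_zero
  rcases lt_or_ge T 0 with hT | hT
  · refine Set.Finite.subset (Set.finite_empty) fun ρ hρ => ?_
    have : |(zz ρ).im| ≤ T := hρ
    linarith [abs_nonneg (zz ρ).im]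
  have h1 : ∀ᶠ ρ in cofinite, mm ρ / (1 + |(zz ρ).im|) ^ (2 : ℝ) < 1 / (1 + T) ^ (2 : ℝ) :=
    hs.eventually_lt_const (by positivity)
  refine Set.Finite.subset h1 fun ρ hρ => ?_
  simp only [mem_ofPred_eq, mem_compl_iff, not_lt] at hρ ⊢
  have e3 : (1 + |(zz ρ).im|) ^ (2 : ℝ) ≤ (1 + T) ^ (2 : ℝ) :=
    Real.rpow_le_rpow (by positivity) (by linarith) (by norm_num)
  exact div_le_div₀ (by linarith [mm_one_le ρ]) (mm_one_le ρ) (by positivity) e3

/-- iterated averages of a bounded exponential sum -/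
lemma pow_bound {h : ℝ → ℂ} (hh : TF h) (h1 : ∫ u, ‖h u‖ ≤ 1) {M : ℝ} (hM0 : 0 ≤ M) :
    ∀ (n : ℕ) (c : Zr → ℂ), Summable c → (∀ v : ℝ, ‖∑' ρ : Zr, c ρ * cexp (-zz ρ * v)‖ ≤ M) →
      Summable (fun ρ => c ρ * LT h (-zz ρ) ^ n) ∧
        ‖∑' ρ : Zr, c ρ * LT h (-zz ρ) ^ n‖ ≤ M := by
  intro n
  induction n with
  | zero =>
    intro c hc hM
    refine ⟨by simpa using hc, ?_⟩
    have := hM 0
    simpa using this
  | succ n ih =>
    intro c hc hM
    obtain ⟨C, hC, hb⟩ := LT_bound0 hh 1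
    have hre : ∀ ρ : Zr, |(-zz ρ).re| ≤ 1 := fun ρ => by
      rw [Complex.neg_re, abs_neg]
      exact zz_re_le ρ
    have hc' : Summable (fun ρ => c ρ * LT h (-zz ρ)) := by
      refine Summable.of_norm_bounded (hc.norm.mul_right C) fun ρ => ?_
      rw [norm_mul]
      exact mul_le_mul_of_nonneg_left (hb _ (hre ρ)) (norm_nonneg _)
    have key : ∀ v : ℝ, ‖∑' ρ : Zr, c ρ * LT h (-zz ρ) * cexp (-zz ρ * v)‖ ≤ M := by
      intro v
      set F : Zr → ℝ → ℂ := fun ρ u => h u * (c ρ * cexp (-zz ρ * ((u + v : ℝ) : ℂ))) with hF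
      have hexp : ∀ (ρ : Zr) (u : ℝ), ‖cexp (-zz ρ * ((u + v : ℝ) : ℂ))‖ ≤ Real.exp |u + v| := by
        intro ρ u
        rw [Complex.norm_exp]
        apply Real.exp_le_exp.mpr
        rw [Complex.re_mul_ofReal]
        calc (-zz ρ).re * (u + v) ≤ |(-zz ρ).re * (u + v)| := le_abs_self _
          _ = |(-zz ρ).re| * |u + v| := abs_mul _ _
          _ ≤ 1 * |u + v| := mul_le_mul_of_nonneg_right (hre ρ) (abs_nonneg _)
          _ = _ := one_mul _
      have hFint : ∀ ρ, Integrable (F ρ) := by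
        intro ρ
        apply Continuous.integrable_of_hasCompactSupport
        · have := hh.cont
          fun_prop
        · exact hh.supp.mul_right
      have hG : Integrable fun u : ℝ => ‖h u‖ * Real.exp |u + v| := by
        apply Continuous.integrable_of_hasCompactSupport
        · have := hh.cont
          fun_prop
        · exact hh.supp.norm.mul_right
      have hFn : ∀ ρ, ∫ u, ‖F ρ u‖ ≤ ‖c ρ‖ * ∫ u, ‖h u‖ * Real.exp |u + v| := by
        intro ρ
        rw [← integral_const_mul]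
        refine integral_mono (hFint ρ).norm (hG.const_mul _) fun u => ?_
        simp only [hF, norm_mul]
        calc ‖h u‖ * (‖c ρ‖ * ‖cexp (-zz ρ * ((u + v : ℝ) : ℂ))‖) ≤ ‖h u‖ * (‖c ρ‖ * Real.exp |u + v|) :=
              mul_le_mul_of_nonneg_left (mul_le_mul_of_nonneg_left (hexp ρ u) (norm_nonneg _)) (norm_nonneg _)
          _ = _ := by ring
      have hsum : Summable fun ρ => ∫ u, ‖F ρ u‖ :=
        Summable.of_nonneg_of_le (fun ρ => integral_nonneg fun u => norm_nonneg _) hFn (hc.norm.mul_right _)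
      have hS := hasSum_integral_of_summable_integral_norm hFint hsum
      have e1 : ∀ ρ, ∫ u, F ρ u = c ρ * LT h (-zz ρ) * cexp (-zz ρ * v) := by
        intro ρ
        simp only [hF]
        have : ∀ u : ℝ, h u * (c ρ * cexp (-zz ρ * ((u + v : ℝ) : ℂ))) =
            (c ρ * cexp (-zz ρ * v)) * (h u * cexp (-zz ρ * u)) := by
          intro u
          have e : cexp (-zz ρ * ((u + v : ℝ) : ℂ)) = cexp (-zz ρ * u) * cexp (-zz ρ * v) := by
            rw [← Complex.exp_add]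
            congr 1
            push_cast
            ring
          rw [e]
          ring
        simp_rw [this]
        rw [integral_const_mul]
        unfold LT
        ring
      simp_rw [e1] at hS
      rw [hS.tsum_eq]
      have e2 : ∀ u : ℝ, ‖∑' ρ : Zr, F ρ u‖ ≤ M * ‖h u‖ := by
        intro u
        simp only [hF]
        rw [tsum_mul_left, norm_mul, mul_comm]
        exact mul_le_mul_of_nonneg_right (hM (u + v)) (norm_nonneg _)
      calc ‖∫ u, ∑' ρ : Zr, F ρ u‖ ≤ ∫ u, M * ‖h u‖ :=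
            norm_integral_le_of_norm_le
              ((hh.cont.norm.integrable_of_hasCompactSupport hh.supp.norm).const_mul M)
              (Eventually.of_forall e2)
        _ = M * ∫ u, ‖h u‖ := integral_const_mul _ _
        _ ≤ M * 1 := mul_le_mul_of_nonneg_left h1 hM0
        _ = M := mul_one M
    obtain ⟨h2, h3⟩ := ih (fun ρ => c ρ * LT h (-zz ρ)) hc' key
    have e : (fun ρ => c ρ * LT h (-zz ρ) ^ (n + 1)) = fun ρ => c ρ * LT h (-zz ρ) * LT h (-zz ρ) ^ n := by
      funext ρ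
      ring
    rw [e]
    exact ⟨h2, h3⟩

/-! ### translations -/

/-- translates -/
def tl (f : ℝ → ℂ) (v x : ℝ) : ℂ := f (x + v)

lemma tl_mem {f : ℝ → ℂ} (hf : f ∈ Ts a) (v : ℝ) : tl f v ∈ Ts (a + |v|) := by
  refine ⟨hf.1.comp (contDiff_id.add contDiff_const), fun x hx => hf.2 _ ?_⟩
  have := abs_sub_abs_le_abs_sub x (-v)
  rw [abs_neg, sub_neg_eq_add] at this
  linarith

lemma LT_tl (f : ℝ → ℂ) (v : ℝ) (z : ℂ) : LT (tl f v) z = cexp (-z * v) * LT f z := by
  unfold LT tl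
  rw [← integral_const_mul]
  rw [← integral_add_right_eq_self (fun x : ℝ => cexp (-z * v) * (f x * cexp (z * x))) v]
  congr 1
  funext x
  have : cexp (z * x) = cexp (-z * v) * cexp (z * ((x + v : ℝ) : ℂ)) := by
    rw [← Complex.exp_add]
    congr 1
    push_cast
    ring
  rw [this]
  ring

lemma wt_tl (f g : ℝ → ℂ) (v : ℝ) (ρ : Zr) : wt (tl f v) g ρ = wt f g ρ * cexp (-zz ρ * v) := by
  unfold wt
  rw [LT_tl]
  ring

lemma Wf_tl (f g : ℝ → ℂ) (v : ℝ) : Wf (tl f v) (tl g v) = Wf f g := by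
  unfold Wf wt
  congr 1
  funext ρ
  rw [LT_tl, LT_tl, map_mul, ← Complex.exp_conj]
  have : cexp (-zz ρ * v) * cexp (conj (- -conj (zz ρ) * v)) = 1 := by
    rw [← Complex.exp_add]
    have : -zz ρ * v + conj (- -conj (zz ρ) * v) = 0 := by
      simp
    rw [this, Complex.exp_zero]
  linear_combination ((mm ρ : ℂ) * (LT f (zz ρ) * conj (LT g (-conj (zz ρ))))) * this

lemma norm_tl (f : ℝ → ℂ) (v : ℝ) : ∫ x, ‖tl f v x‖ ^ 2 = ∫ x, ‖f x‖ ^ 2 :=
  integral_add_right_eq_self (fun x : ℝ => ‖f x‖ ^ 2) v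

lemma low_anti {b : ℝ} (ha : 0 < a) (hab : a ≤ b) : low b ≤ low a := by
  apply csInf_le_csInf (low_bdd (ha.trans_le hab)) (low_nonempty ha)
  rintro r ⟨g, hg, h1, h2⟩
  exact ⟨g, Ts.mono hab hg, h1, h2⟩

/-- the form on translates is bounded -/
lemma tl_bounded (ha : 0 < a) {L : ℝ} (hL : ∀ b, a ≤ b → -L ≤ low b) {f g : ℝ → ℂ} (hf : f ∈ Ts a) (hg : g ∈ Ts a) :
    ∃ M : ℝ, 0 ≤ M ∧ ∀ v : ℝ, ‖Wf (tl f v) g‖ ≤ M := by
  set L' : ℝ := |L| + |low a| with hL'
  set Nf : ℝ := ∫ x, ‖f x‖ ^ 2 with hNf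
  set Ng : ℝ := ∫ x, ‖g x‖ ^ 2 with hNg
  refine ⟨Real.sqrt (|(Wf f f).re| + L' * Nf) * Real.sqrt (|(Wf g g).re| + L' * Ng) +
    L' * (Real.sqrt Nf * Real.sqrt Ng), by positivity, fun v => ?_⟩
  set b : ℝ := a + |v| with hb
  have hab : a ≤ b := by rw [hb]; linarith [abs_nonneg v]
  have hbp : 0 < b := ha.trans_le hab
  have hlow : |low b| ≤ L' := by
    rw [abs_le]
    constructor
    · have := hL b hab
      have h1 := le_abs_self L
      have h2 := abs_nonneg (low a)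
      linarith
    · have := low_anti ha hab
      have h1 := le_abs_self (low a)
      have h2 := abs_nonneg L
      linarith
  set F : Ts b := ⟨tl f v, tl_mem hf v⟩ with hF
  set G : Ts b := ⟨g, Ts.mono hab hg⟩ with hG
  have nF : ‖toL b F‖ ^ 2 = Nf := by
    rw [norm_toL]
    exact norm_tl f v
  have nG : ‖toL b G‖ ^ 2 = Ng := norm_toL G
  have bF : (form hbp).bn F ≤ Real.sqrt (|(Wf f f).re| + L' * Nf) := by
    apply Real.le_sqrt_of_sq_le
    rw [(form hbp).bn_sq, form_self, nF]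
    have e1 : Wf (F : ℝ → ℂ) (F : ℝ → ℂ) = Wf f f := Wf_tl f f v
    rw [e1]
    have h1 := le_abs_self (Wf f f).re
    have hNf0 : 0 ≤ Nf := by rw [← nF]; positivity
    have h2 := mul_le_mul_of_nonneg_right ((neg_le_abs (low b)).trans hlow) hNf0
    linarith
  have bG : (form hbp).bn G ≤ Real.sqrt (|(Wf g g).re| + L' * Ng) := by
    apply Real.le_sqrt_of_sq_le
    rw [(form hbp).bn_sq, form_self, nG]
    have h1 := le_abs_self (Wf g g).re
    have hNg0 : 0 ≤ Ng := by rw [← nG]; positivity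
    have h2 := mul_le_mul_of_nonneg_right ((neg_le_abs (low b)).trans hlow) hNg0
    linarith
  have e2 : (form hbp).B F G = Wf (tl f v) g - (low b : ℂ) * inner ℂ (toL b G) (toL b F) := rfl
  have h1 : ‖Wf (tl f v) g‖ ≤ ‖(form hbp).B F G‖ + ‖(low b : ℂ) * inner ℂ (toL b G) (toL b F)‖ := by
    rw [e2]
    have := norm_add_le (Wf (tl f v) g - (low b : ℂ) * inner ℂ (toL b G) (toL b F))
      ((low b : ℂ) * inner ℂ (toL b G) (toL b F))
    rwa [sub_add_cancel] at this
  have h2 : ‖(form hbp).B F G‖ ≤ Real.sqrt (|(Wf f f).re| + L' * Nf) * Real.sqrt (|(Wf g g).re| + L' * Ng) :=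
    ((form hbp).norm_le F G).trans (mul_le_mul bF bG ((form hbp).bn_nonneg _) (Real.sqrt_nonneg _))
  have h3 : ‖(low b : ℂ) * inner ℂ (toL b G) (toL b F)‖ ≤ L' * (Real.sqrt Nf * Real.sqrt Ng) := by
    rw [norm_mul, Complex.norm_real, Real.norm_eq_abs]
    have h4 : ‖inner ℂ (toL b G) (toL b F)‖ ≤ Real.sqrt Nf * Real.sqrt Ng := by
      have e3 : ‖toL b F‖ = Real.sqrt Nf := by rw [← nF, Real.sqrt_sq (norm_nonneg _)]
      have e4 : ‖toL b G‖ = Real.sqrt Ng := by rw [← nG, Real.sqrt_sq (norm_nonneg _)]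
      rw [← e3, ← e4, mul_comm]
      exact norm_inner_le_norm _ _
    exact mul_le_mul hlow h4 (norm_nonneg _) ((abs_nonneg _).trans hlow)
  linarith

/-- test functions with prescribed zeros -/
lemma exists_zeros (ha : 0 < a) (w : ℂ) (S : Finset ℂ) (hS : w ∉ S) :
    ∃ f : Ts a, LT f w ≠ 0 ∧ ∀ z ∈ S, LT f z = 0 := by
  induction S using Finset.induction_on with
  | empty =>
    obtain ⟨η, hη⟩ := exists_eta ha w
    exact ⟨η, by rw [hη]; exact one_ne_zero, fun z hz => absurd hz (Finset.notMem_empty z)⟩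
  | insert s S hs ih =>
    rw [Finset.mem_insert, not_or] at hS
    obtain ⟨f, h1, h2⟩ := ih hS.2
    refine ⟨Ao a s f, ?_, fun z hz => ?_⟩
    · rw [LT_Ao]
      exact mul_ne_zero (sub_ne_zero.mpr hS.1) h1
    · rw [LT_Ao]
      rcases Finset.mem_insert.mp hz with rfl | h3
      · rw [sub_self, zero_mul]
      · rw [h2 z h3, mul_zero]

lemma zz_inj : Function.Injective zz := by
  intro ρ ρ' h
  unfold zz at h
  exact Subtype.ext (sub_left_injective h)

/-- a zero off the line forces the lowest eigenvalue to be unbounded -/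
lemma low_unbdd_pos (ρ0 : Zr) (h0 : 0 < (zz ρ0).re) (ha : 0 < a) {L : ℝ} (hL : ∀ b, a ≤ b → -L ≤ low b) :
    False := by
  -- the kernel
  obtain ⟨k, hk1, hk2, hk3, hk4⟩ := exists_bump one_pos
  have hkc : Continuous k := hk1.continuous
  have hks : HasCompactSupport k := by
    refine HasCompactSupport.intro (K := Icc (-1) 1) isCompact_Icc fun x hx => hk3 x ?_
    by_contra hlt
    push Not at hlt
    exact hx ⟨(abs_le.mp hlt).1, (abs_le.mp hlt).2⟩
  set N : ℝ := ∫ x, k x with hN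
  have hNpos : 0 < N := by
    apply hkc.integral_pos_of_hasCompactSupport_nonneg_nonzero hks hk2 (x := 0)
    rw [hk4]
    exact one_ne_zero
  set β : ℝ := (zz ρ0).re with hβ
  set γ : ℝ := (zz ρ0).im with hγ
  set h : ℝ → ℂ := fun u => ((N⁻¹ * k (u + 2) : ℝ) : ℂ) * cexp ((γ * I) * u) with hh
  have hT : TF h := by
    refine ⟨?_, ?_⟩
    · refine ContDiff.mul (Complex.ofRealCLM.contDiff.comp (contDiff_const.mul (hk1.comp (contDiff_id.add contDiff_const)))) ?_
      exact (contDiff_const.mul Complex.ofRealCLM.contDiff).cexp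
    · have h1 : HasCompactSupport fun u : ℝ => k (u + 2) := hks.comp_homeomorph (Homeomorph.addRight (2 : ℝ))
      have h2 : HasCompactSupport fun u : ℝ => ((N⁻¹ * k (u + 2) : ℝ) : ℂ) := by
        have h3 : HasCompactSupport fun u : ℝ => N⁻¹ * k (u + 2) := h1.mul_left
        exact h3.comp_left (g := fun x : ℝ => (x : ℂ)) Complex.ofReal_zero
      exact h2.mul_right
  have hk2' : ∀ u, 0 ≤ N⁻¹ * k (u + 2) := fun u => mul_nonneg (inv_nonneg.mpr hNpos.le) (hk2 _)
  have hnorm : ∀ u, ‖h u‖ = N⁻¹ * k (u + 2) := by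
    intro u
    simp only [hh]
    rw [norm_mul, Complex.norm_real, Real.norm_of_nonneg (hk2' u), Complex.norm_exp]
    simp
  have hsh : ∫ u : ℝ, k (u + 2) = N := integral_add_right_eq_self k 2
  have h1 : ∫ u, ‖h u‖ ≤ 1 := by
    simp_rw [hnorm]
    rw [integral_const_mul, hsh, inv_mul_cancel₀ hNpos.ne']
  -- the value at the zero
  have hκ : 1 < ‖LT h (-zz ρ0)‖ := by
    have e1 : LT h (-zz ρ0) = ((∫ u : ℝ, (N⁻¹ * k (u + 2)) * Real.exp (-β * u) : ℝ) : ℂ) := by
      unfold LT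
      rw [← integral_complex_ofReal]
      congr 1
      funext u
      simp only [hh]
      have e2 : cexp ((γ * I) * u) * cexp (-zz ρ0 * u) = ((Real.exp (-β * u) : ℝ) : ℂ) := by
        rw [← Complex.exp_add, Complex.ofReal_exp]
        congr 1
        have : zz ρ0 = (β : ℂ) + γ * I := (Complex.re_add_im _).symm
        rw [this]
        push_cast
        ring
      rw [mul_assoc, e2]
      push_cast
      rfl
    have hc1 : Continuous fun u : ℝ => N⁻¹ * k (u + 2) := by fun_prop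
    have hs1 : HasCompactSupport fun u : ℝ => k (u + 2) := hks.comp_homeomorph (Homeomorph.addRight (2 : ℝ))
    have hs2 : HasCompactSupport fun u : ℝ => N⁻¹ * k (u + 2) := hs1.mul_left
    have i1 : Integrable fun u : ℝ => (N⁻¹ * k (u + 2)) * Real.exp (-β * u) := by
      apply Continuous.integrable_of_hasCompactSupport
      · fun_prop
      · exact hs2.mul_right
    have i2 : Integrable fun u : ℝ => (N⁻¹ * k (u + 2)) * Real.exp β := by
      apply Continuous.integrable_of_hasCompactSupport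
      · fun_prop
      · exact hs2.mul_right
    have e3 : Real.exp β ≤ ∫ u : ℝ, (N⁻¹ * k (u + 2)) * Real.exp (-β * u) := by
      have e4 : ∫ u : ℝ, (N⁻¹ * k (u + 2)) * Real.exp β = Real.exp β := by
        rw [integral_mul_const, integral_const_mul, hsh, inv_mul_cancel₀ hNpos.ne', one_mul]
      rw [← e4]
      refine integral_mono i2 i1 fun u => ?_
      simp only
      by_cases hu : 1 < |u + 2|
      · rw [hk3 _ hu]
        simp
      · push Not at hu
        have h2 := (abs_le.mp hu).2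
        apply mul_le_mul_of_nonneg_left _ (hk2' u)
        apply Real.exp_le_exp.mpr
        nlinarith
    have e5 : 1 < Real.exp β := Real.one_lt_exp_iff.mpr h0
    rw [e1, Complex.norm_real]
    exact (e5.trans_le e3).trans_le (le_abs_self _)
  -- the exceptional zeros
  have hbad : {ρ : Zr | 1 < ‖LT h (-zz ρ)‖}.Finite := by
    obtain ⟨C, hC, hb⟩ := LT_bound hT 1
    refine (fin_im C).subset fun ρ hρ => ?_
    have h2 : 1 < ‖LT h (-zz ρ)‖ := hρ
    have h3 := hb (-zz ρ) (by rw [Complex.neg_re, abs_neg]; exact zz_re_le ρ)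
    have h4 := h2.trans_le h3
    rw [lt_div_iff₀ (by positivity), one_mul, Complex.neg_im, neg_sq] at h4
    show |(zz ρ).im| ≤ C
    have h5 := sq_abs (zz ρ).im
    nlinarith [sq_nonneg (|(zz ρ).im| - 1), sq_nonneg ((zz ρ).im ^ 2)]
  set S : Finset ℂ := (hbad.toFinset.erase ρ0).image zz with hS
  have hSn : zz ρ0 ∉ S := by
    intro hmem
    rw [hS, Finset.mem_image] at hmem
    obtain ⟨ρ, h2, h3⟩ := hmem
    exact (Finset.mem_erase.mp h2).1 (zz_inj h3)
  obtain ⟨f, hf1, hf2⟩ := exists_zeros ha (zz ρ0) S hSn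
  obtain ⟨g, hg⟩ := exists_eta ha (-conj (zz ρ0))
  set c : Zr → ℂ := wt f g with hc
  have hcs : Summable c := summable_wt (Ts.tf f.2) (Ts.tf g.2)
  have hc0 : c ρ0 ≠ 0 := by
    rw [hc]
    unfold wt
    rw [hg, map_one, mul_one]
    exact mul_ne_zero (by exact_mod_cast (by linarith [mm_one_le ρ0] : mm ρ0 ≠ 0)) hf1
  have hcbad : ∀ ρ : Zr, ρ ≠ ρ0 → 1 < ‖LT h (-zz ρ)‖ → c ρ = 0 := by
    intro ρ hρ h2
    rw [hc]
    unfold wt
    have h3 : zz ρ ∈ S := by
      rw [hS]
      apply Finset.mem_image_of_mem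
      rw [Finset.mem_erase]
      exact ⟨hρ, hbad.mem_toFinset.mpr h2⟩
    rw [hf2 _ h3, zero_mul, mul_zero]
  obtain ⟨M, hM0, hM⟩ := tl_bounded ha hL f.2 g.2
  have hM' : ∀ v : ℝ, ‖∑' ρ : Zr, c ρ * cexp (-zz ρ * v)‖ ≤ M := by
    intro v
    have e : ∑' ρ : Zr, c ρ * cexp (-zz ρ * v) = Wf (tl f v) g := by
      unfold Wf
      exact tsum_congr fun ρ => (wt_tl f g v ρ).symm
    rw [e]
    exact hM v
  -- conclusion
  have hfin : ∀ n : ℕ, ‖c ρ0‖ * ‖LT h (-zz ρ0)‖ ^ n ≤ M + ∑' ρ : Zr, ‖c ρ‖ := by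
    intro n
    obtain ⟨h2, h3⟩ := pow_bound hT h1 hM0 n c hcs hM'
    rw [h2.tsum_eq_add_tsum_ite ρ0] at h3
    have h4 : ‖∑' ρ : Zr, if ρ = ρ0 then 0 else c ρ * LT h (-zz ρ) ^ n‖ ≤ ∑' ρ : Zr, ‖c ρ‖ := by
      refine tsum_of_norm_bounded hcs.norm.hasSum fun ρ => ?_
      by_cases h5 : ρ = ρ0
      · rw [if_pos h5, norm_zero]
        exact norm_nonneg _
      · rw [if_neg h5, norm_mul, norm_pow]
        by_cases h6 : 1 < ‖LT h (-zz ρ)‖
        · rw [hcbad ρ h5 h6, norm_zero, zero_mul]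
        · push Not at h6
          exact mul_le_of_le_one_right (norm_nonneg _) (pow_le_one₀ (norm_nonneg _) h6)
    have h5 : ‖c ρ0 * LT h (-zz ρ0) ^ n‖ ≤ M + ∑' ρ : Zr, ‖c ρ‖ := by
      have h6 := norm_sub_le (c ρ0 * LT h (-zz ρ0) ^ n + ∑' ρ : Zr, if ρ = ρ0 then 0 else c ρ * LT h (-zz ρ) ^ n)
        (∑' ρ : Zr, if ρ = ρ0 then 0 else c ρ * LT h (-zz ρ) ^ n)
      rw [add_sub_cancel_right] at h6
      linarith
    rwa [norm_mul, norm_pow] at h5
  have h2 : Tendsto (fun n : ℕ => ‖c ρ0‖ * ‖LT h (-zz ρ0)‖ ^ n) atTop atTop :=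
    (tendsto_pow_atTop_atTop_of_one_lt hκ).const_mul_atTop (norm_pos_iff.mpr hc0)
  obtain ⟨n, hn⟩ := (h2.eventually_gt_atTop (M + ∑' ρ : Zr, ‖c ρ‖)).exists
  exact absurd (hfin n) (not_le.mpr hn)

/-- if some zero is off the line, the lowest eigenvalue tends to `-∞` -/
theorem low_atBot (h : ∃ ρ : Zr, (zz ρ).re ≠ 0) : Tendsto low atTop atBot := by
  obtain ⟨ρ, hρ⟩ := h
  obtain ⟨ρ0, h0⟩ : ∃ ρ0 : Zr, 0 < (zz ρ0).re := by
    rcases lt_or_gt_of_ne hρ with h1 | h1
    · refine ⟨V11271.LI.reflE ρ, ?_⟩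
      rw [V11271.LI.zz_refl]
      simpa using h1
    · exact ⟨ρ, h1⟩
  rw [tendsto_atBot]
  intro b
  by_contra hcon
  have h1 : ∀ c : ℝ, 1 ≤ c → -(-b) ≤ low c := by
    intro c hc
    by_contra hlt
    push Not at hlt
    apply hcon
    filter_upwards [eventually_ge_atTop c] with d hd
    have := low_anti (by linarith) hd
    linarith
  exact low_unbdd_pos ρ0 h0 one_pos h1

end Pool.Agent.Helper61.W.GS
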