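import Mathlib

set_option autoImplicit false

/-!
# Positive semidefinite hermitian forms
-/

namespace Pool.Agent.Helper61.W.GS

open scoped ComplexConjugate

/-- positive semidefinite hermitian forms, linear in the first variable -/
structure PF (V : Type*) [AddCommGroup V] [Module ℂ V] where
  B : V → V → ℂ
  add_left : ∀ x y z, B (x + y) z = B x z + B y z
  smul_left : ∀ (c : ℂ) x z, B (c • x) z = c * B x z
  symm : ∀ x y, conj (B x y) = B y x
  nonneg : ∀ x, 0 ≤ (B x x).re

namespace PF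

variable {V : Type*} [AddCommGroup V] [Module ℂ V] (P : PF V)

/-- the form as a semi-inner product -/
noncomputable def core : PreInnerProductSpace.Core ℂ V where
  inner x y := P.B y x
  conj_inner_symm x y := P.symm _ _
  re_inner_nonneg x := P.nonneg x
  add_left x y z := by
    rw [← P.symm, P.add_left, map_add, P.symm, P.symm]
  smul_left x y c := by
    rw [← P.symm, P.smul_left, map_mul, P.symm]

lemma add_right (x y z : V) : P.B z (x + y) = P.B z x + P.B z y := P.core.add_left x y z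

lemma smul_right (c : ℂ) (x z : V) : P.B z (c • x) = conj c * P.B z x := P.core.smul_left x z c

lemma cs (x y : V) : ‖P.B x y‖ ^ 2 ≤ (P.B x x).re * (P.B y y).re := by
  letI := P.core
  have h := InnerProductSpace.Core.inner_mul_inner_self_le (𝕜 := ℂ) x y
  have h1 : ‖P.B y x‖ = ‖P.B x y‖ := by rw [← P.symm x y, Complex.norm_conj]
  have h2 : ‖P.B y x‖ * ‖P.B x y‖ ≤ (P.B x x).re * (P.B y y).re := h
  rw [h1] at h2
  rw [pow_two]
  exact h2

/-- the seminorm -/
noncomputable def bn (x : V) : ℝ := Real.sqrt (P.B x x).re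

lemma bn_nonneg (x : V) : 0 ≤ P.bn x := Real.sqrt_nonneg _

lemma bn_sq (x : V) : P.bn x ^ 2 = (P.B x x).re := Real.sq_sqrt (P.nonneg x)

lemma norm_le (x y : V) : ‖P.B x y‖ ≤ P.bn x * P.bn y := by
  have h := P.cs x y
  rw [← P.bn_sq, ← P.bn_sq, ← mul_pow] at h
  exact (pow_le_pow_iff_left₀ (norm_nonneg _) (mul_nonneg (P.bn_nonneg x) (P.bn_nonneg y)) (by norm_num)).mp h

lemma im_self (x : V) : (P.B x x).im = 0 := by
  have h := congrArg Complex.im (P.symm x x)
  rw [Complex.conj_im] at h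
  linarith

lemma self_eq (x : V) : P.B x x = ((P.B x x).re : ℂ) := by
  apply Complex.ext
  · rw [Complex.ofReal_re]
  · rw [Complex.ofReal_im, P.im_self]

lemma bn_add (x y : V) : P.bn (x + y) ≤ P.bn x + P.bn y := by
  have h1 : P.bn (x + y) ^ 2 ≤ (P.bn x + P.bn y) ^ 2 := by
    rw [P.bn_sq, P.add_left, P.add_right, P.add_right]
    simp only [Complex.add_re]
    have h2 : (P.B y x).re = (P.B x y).re := by rw [← P.symm x y, Complex.conj_re]
    have h3 : (P.B x y).re ≤ P.bn x * P.bn y := (Complex.re_le_norm _).trans (P.norm_le x y)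
    rw [h2, ← P.bn_sq x, ← P.bn_sq y]
    nlinarith
  exact (pow_le_pow_iff_left₀ (P.bn_nonneg _) (add_nonneg (P.bn_nonneg _) (P.bn_nonneg _)) (by norm_num)).mp h1

lemma bn_smul (c : ℂ) (x : V) : P.bn (c • x) = ‖c‖ * P.bn x := by
  unfold bn
  rw [P.smul_left, P.smul_right, ← mul_assoc, Complex.mul_conj, P.self_eq, ← Complex.ofReal_mul,
    Complex.ofReal_re, Real.sqrt_mul (Complex.normSq_nonneg _)]
  rfl

lemma bn_neg (x : V) : P.bn (-x) = P.bn x := by
  rw [← neg_one_smul ℂ x, P.bn_smul]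
  simp

lemma bn_sub (x y : V) : P.bn (x - y) ≤ P.bn x + P.bn y := by
  rw [sub_eq_add_neg]
  refine (P.bn_add _ _).trans ?_
  rw [P.bn_neg]

lemma neg_left (x y : V) : P.B (-x) y = -P.B x y := by
  rw [← neg_one_smul ℂ x, P.smul_left]
  ring

lemma neg_right (x y : V) : P.B x (-y) = -P.B x y := by
  rw [← neg_one_smul ℂ y, P.smul_right]
  simp

end PF

end Pool.Agent.Helper61.W.GS
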