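import Pool.Agent.Helper61.GS.Cp
import Pool.Agent.Helper61.GS.Pf

set_option autoImplicit false

/-!
# First order operators and division of transforms
-/

namespace Pool.Agent.Helper61.W.GS

open Complex Filter Topology Set MeasureTheory
open scoped ComplexConjugate ContDiff
open Pool.Agent.V11271.LI (Zr mm cfg_zeta zz)

variable {a : ℝ} {g k f : ℝ → ℂ}

/-! ### evaluation of the transform -/

/-- the element representing the transform at `z` -/
noncomputable def ez (a : ℝ) (z : ℂ) : HL :=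
  (ct_memLp a (f := fun x : ℝ => conj (cexp (z * x))) (by fun_prop)).toLp
    (ct a (fun x : ℝ => conj (cexp (z * x))))

/-- the transform on the Hilbert space -/
noncomputable def ev (a : ℝ) (z : ℂ) : HL →L[ℂ] ℂ := innerSL ℂ (ez a z)

lemma ev_eq_int (φ : HL) (z : ℂ) : ev a z φ = ∫ x, ct a (fun x : ℝ => cexp (z * x)) x * φ x := by
  unfold ev
  rw [innerSL_apply_apply, L2.inner_def]
  apply integral_congr_ae
  filter_upwards [MemLp.coeFn_toLp (ct_memLp a (f := fun x : ℝ => conj (cexp (z * x))) (by fun_prop))] with x hx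
  unfold ez
  rw [hx, RCLike.inner_apply, mul_comm]
  unfold ct
  by_cases h : x ∈ Icc (-a) a
  · simp only [indicator_of_mem h, Complex.conj_conj]
  · simp only [indicator_of_notMem h, map_zero]

lemma ev_toL (g : Ts a) (z : ℂ) : ev a z (toL a g) = LT g z := by
  rw [ev_eq_int]
  unfold LT
  apply integral_congr_ae
  filter_upwards [MemLp.coeFn_toLp (Ts.memLp g.2)] with x hx
  have hx' : (toL a g : ℝ → ℂ) x = (g : ℝ → ℂ) x := hx
  rw [hx']
  unfold ct
  by_cases h : x ∈ Icc (-a) a
  · rw [indicator_of_mem h, mul_comm]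
  · rw [indicator_of_notMem h, g.2.2 x]
    · simp
    · by_contra hlt
      push Not at hlt
      exact h ⟨(abs_le.mp hlt).1, (abs_le.mp hlt).2⟩

lemma norm_ez (ha : 0 < a) {z : ℂ} {R : ℝ} (hz : |z.re| ≤ R) :
    ‖ez a z‖ ≤ Real.sqrt (2 * a) * Real.exp (R * a) := by
  have h1 : ‖ez a z‖ ^ 2 ≤ (Real.sqrt (2 * a) * Real.exp (R * a)) ^ 2 := by
    unfold ez
    rw [norm_toLp_sq, mul_pow, Real.sq_sqrt (by positivity)]
    have e1 : ∀ x, ‖ct a (fun x : ℝ => conj (cexp (z * x))) x‖ ^ 2 =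
        indicator (Icc (-a) a) (fun x : ℝ => ‖cexp (z * x)‖ ^ 2) x := by
      intro x
      unfold ct
      by_cases h : x ∈ Icc (-a) a
      · rw [indicator_of_mem h, indicator_of_mem h, Complex.norm_conj]
      · rw [indicator_of_notMem h, indicator_of_notMem h]
        simp
    simp_rw [e1]
    rw [integral_indicator measurableSet_Icc]
    have e2 : ∀ x ∈ Icc (-a) a, ‖‖cexp (z * x)‖ ^ 2‖ ≤ Real.exp (R * a) ^ 2 := by
      intro x hx
      rw [Real.norm_of_nonneg (by positivity), Complex.norm_exp]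
      apply pow_le_pow_left₀ (Real.exp_pos _).le
      apply Real.exp_le_exp.mpr
      have : (z * x).re = z.re * x := by simp
      rw [this]
      have h1 : |x| ≤ a := abs_le.mpr ⟨hx.1, hx.2⟩
      calc z.re * x ≤ |z.re * x| := le_abs_self _
        _ = |z.re| * |x| := abs_mul _ _
        _ ≤ R * a := mul_le_mul hz h1 (abs_nonneg _) ((abs_nonneg _).trans hz)
    have e3 := norm_setIntegral_le_of_norm_le_const (μ := volume) (s := Icc (-a) a)
      (f := fun x : ℝ => ‖cexp (z * x)‖ ^ 2) (C := Real.exp (R * a) ^ 2) (by simp) e2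
    have e4 : (volume : Measure ℝ).real (Icc (-a) a) = 2 * a := by
      rw [Real.volume_real_Icc_of_le (by linarith)]
      ring
    rw [e4] at e3
    refine (le_abs_self _).trans (e3.trans (le_of_eq ?_))
    ring
  exact (pow_le_pow_iff_left₀ (norm_nonneg _) (by positivity) (by norm_num)).mp h1

lemma ev_bound (ha : 0 < a) {z : ℂ} {R : ℝ} (hz : |z.re| ≤ R) (φ : HL) :
    ‖ev a z φ‖ ≤ Real.sqrt (2 * a) * Real.exp (R * a) * ‖φ‖ := by
  unfold ev
  rw [innerSL_apply_apply]
  exact (norm_inner_le_norm _ _).trans (mul_le_mul_of_nonneg_right (norm_ez ha hz) (norm_nonneg _))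

/-! ### the operators -/

/-- the operator with symbol `z - w` -/
noncomputable def Aw (w : ℂ) (k : ℝ → ℂ) (x : ℝ) : ℂ := -(deriv k x + w * k x)

lemma Aw_mem (w : ℂ) (hk : k ∈ Ts a) : Aw w k ∈ Ts a := by
  have h1 := contDiff_infty_iff_deriv.mp hk.1
  refine ⟨(h1.2.add (contDiff_const.mul hk.1)).neg, fun x hx => ?_⟩
  unfold Aw
  have h2 : deriv k x = 0 := by
    have h3 : k =ᶠ[𝓝 x] fun _ => 0 := by
      filter_upwards [continuous_abs.continuousAt.eventually (lt_mem_nhds hx)] with y hy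
      exact hk.2 y hy
    rw [h3.deriv_eq]
    simp
  rw [h2, hk.2 x hx]
  simp

lemma LT_Aw (hk : TF k) (w z : ℂ) : LT (Aw w k) z = (z - w) * LT k z := by
  have h1 : Aw w k = (-1 : ℂ) • (deriv k + w • k) := by
    funext x
    simp only [Aw, Pi.smul_apply, Pi.add_apply, smul_eq_mul]
    ring
  rw [h1, LT_smul, LT_add hk.deriv (TF.smul' w hk), LT_deriv hk, LT_smul]
  ring

/-- the operators on the space of test functions -/
noncomputable def Ao (a : ℝ) (w : ℂ) (k : Ts a) : Ts a := ⟨Aw w k, Aw_mem w k.2⟩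

lemma Ao_eq (w w' : ℂ) (k : Ts a) : Ao a w k = Ao a w' k + (w' - w) • k := by
  apply Subtype.ext
  funext x
  show -(deriv k x + w * (k : ℝ → ℂ) x) = -(deriv k x + w' * (k : ℝ → ℂ) x) + (w' - w) * (k : ℝ → ℂ) x
  ring

lemma LT_Ao (w z : ℂ) (k : Ts a) : LT (Ao a w k) z = (z - w) * LT k z := LT_Aw (Ts.tf k.2) w z

/-- pointwise bound by the norm of `Aw w k` -/
lemma point_bound (ha : 0 < a) (w : ℂ) (k : Ts a) (x : ℝ) :
    ‖(k : ℝ → ℂ) x‖ ≤ Real.exp (|w.re| * a) * (Real.sqrt (2 * a) * Real.exp (|w.re| * a)) * ‖toL a (Ao a w k)‖ := by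
  by_cases hx : a < |x|
  · rw [k.2.2 x hx, norm_zero]
    positivity
  push Not at hx
  have hk := Ts.tf k.2
  have hd : ∀ y : ℝ, HasDerivAt (fun y : ℝ => -((k : ℝ → ℂ) y * cexp (w * y)))
      ((Aw w k) y * cexp (w * y)) y := by
    intro y
    have := ((hk.hasDerivAt y).mul (hasDerivAt_exp w y)).neg
    refine this.congr_deriv ?_
    unfold Aw
    ring
  have hA := Ts.tf (Aw_mem w k.2)
  have hcA : Continuous (fun y : ℝ => Aw w k y * cexp (w * y)) := hA.cont.mul (by fun_prop)
  have h1 := intervalIntegral.integral_eq_sub_of_hasDerivAt (a := -a) (b := x)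
    (fun y _ => hd y) (hcA.intervalIntegrable _ _)
  have h2 : (k : ℝ → ℂ) (-a) = 0 := Ts.zero_of_le ha k.2 (by rw [abs_neg, abs_of_pos ha])
  simp only [h2, zero_mul, neg_zero, sub_zero] at h1
  have hxa := abs_le.mp hx
  -- the norm of the integral
  have h3 : ‖∫ y in (-a)..x, Aw w k y * cexp (w * y)‖ ≤ ∫ y in Icc (-a) a, ‖Aw w k y‖ * ‖cexp (w * y)‖ := by
    refine (intervalIntegral.norm_integral_le_integral_norm (by linarith [hxa.1])).trans ?_
    rw [intervalIntegral.integral_of_le (by linarith [hxa.1])]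
    have e1 : ∀ y : ℝ, ‖Aw w k y * cexp (w * y)‖ = ‖Aw w k y‖ * ‖cexp (w * y)‖ := fun y => norm_mul _ _
    simp_rw [e1]
    apply setIntegral_mono_set
    · apply Continuous.integrableOn_Icc
      exact hA.cont.norm.mul (by fun_prop)
    · exact Eventually.of_forall fun y => by positivity
    · exact (Ioc_subset_Icc_self.trans (Icc_subset_Icc_right hxa.2)).eventuallyLE
  -- Cauchy-Schwarz through the Hilbert space
  have h4 : ∫ y in Icc (-a) a, ‖Aw w k y‖ * ‖cexp (w * y)‖ ≤
      (Real.sqrt (2 * a) * Real.exp (|w.re| * a)) * ‖toL a (Ao a w k)‖ := by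
    have m1 : MemLp (fun y => ‖Aw w k y‖) (ENNReal.ofReal 2) (volume : Measure ℝ) := by
      have := (Ts.memLp (Aw_mem w k.2)).norm
      simpa using this
    have m2 : MemLp (indicator (Icc (-a) a) fun y : ℝ => ‖cexp (w * y)‖) (ENNReal.ofReal 2) (volume : Measure ℝ) := by
      have h5 := (ct_memLp a (f := fun x : ℝ => cexp (w * x)) (by fun_prop)).norm
      have e5 : (fun x => ‖ct a (fun x : ℝ => cexp (w * x)) x‖) =
          indicator (Icc (-a) a) fun y : ℝ => ‖cexp (w * y)‖ := by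
        funext x
        unfold ct
        by_cases h : x ∈ Icc (-a) a
        · rw [indicator_of_mem h, indicator_of_mem h]
        · rw [indicator_of_notMem h, indicator_of_notMem h, norm_zero]
      rw [e5] at h5
      simpa using h5
    have h6 := integral_mul_le_Lp_mul_Lq_of_nonneg Real.HolderConjugate.two_two
      (f := fun y => ‖Aw w k y‖) (g := indicator (Icc (-a) a) fun y : ℝ => ‖cexp (w * y)‖)
      (Eventually.of_forall fun y => norm_nonneg _)
      (Eventually.of_forall fun y => indicator_nonneg (fun _ _ => norm_nonneg _) y) m1 m2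
    have e6 : ∫ y, ‖Aw w k y‖ * indicator (Icc (-a) a) (fun y : ℝ => ‖cexp (w * y)‖) y =
        ∫ y in Icc (-a) a, ‖Aw w k y‖ * ‖cexp (w * y)‖ := by
      rw [← integral_indicator measurableSet_Icc]
      congr 1
      funext y
      by_cases h : y ∈ Icc (-a) a
      · rw [indicator_of_mem h, indicator_of_mem h]
      · rw [indicator_of_notMem h, indicator_of_notMem h, mul_zero]
    rw [e6] at h6
    refine h6.trans ?_
    have e7 : (∫ y, ‖Aw w k y‖ ^ (2 : ℝ)) ^ (1 / (2 : ℝ)) = ‖toL a (Ao a w k)‖ := by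
      have : ∫ y, ‖Aw w k y‖ ^ (2 : ℝ) = ‖toL a (Ao a w k)‖ ^ 2 := by
        rw [norm_toL]
        congr 1
        funext y
        norm_cast
      rw [this, ← Real.sqrt_eq_rpow, Real.sqrt_sq (norm_nonneg _)]
    have e8 : (∫ y, (indicator (Icc (-a) a) (fun y : ℝ => ‖cexp (w * y)‖) y) ^ (2 : ℝ)) ^ (1 / (2 : ℝ)) =
        ‖ez a w‖ := by
      have : ∫ y, (indicator (Icc (-a) a) (fun y : ℝ => ‖cexp (w * y)‖) y) ^ (2 : ℝ) = ‖ez a w‖ ^ 2 := by
        unfold ez
        rw [norm_toLp_sq]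
        congr 1
        funext y
        unfold ct
        by_cases h : y ∈ Icc (-a) a
        · rw [indicator_of_mem h, indicator_of_mem h, Complex.norm_conj]
          norm_cast
        · rw [indicator_of_notMem h, indicator_of_notMem h]
          simp
      rw [this, ← Real.sqrt_eq_rpow, Real.sqrt_sq (norm_nonneg _)]
    rw [e7, e8, mul_comm]
    exact mul_le_mul_of_nonneg_right (norm_ez ha le_rfl) (norm_nonneg _)
  -- conclusion
  have h7 : ‖(k : ℝ → ℂ) x‖ * ‖cexp (w * x)‖ ≤
      (Real.sqrt (2 * a) * Real.exp (|w.re| * a)) * ‖toL a (Ao a w k)‖ := by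
    rw [← norm_mul, ← norm_neg, ← h1]
    exact h3.trans h4
  have h8 : Real.exp (-(|w.re| * a)) ≤ ‖cexp (w * x)‖ := by
    rw [Complex.norm_exp]
    apply Real.exp_le_exp.mpr
    have : (w * x).re = w.re * x := by simp
    rw [this]
    have h9 : |w.re * x| ≤ |w.re| * a := by
      rw [abs_mul]
      exact mul_le_mul_of_nonneg_left hx (abs_nonneg _)
    linarith [neg_abs_le (w.re * x)]
  have h10 : ‖(k : ℝ → ℂ) x‖ * Real.exp (-(|w.re| * a)) ≤
      (Real.sqrt (2 * a) * Real.exp (|w.re| * a)) * ‖toL a (Ao a w k)‖ :=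
    (mul_le_mul_of_nonneg_left h8 (norm_nonneg _)).trans h7
  rw [Real.exp_neg, ← div_eq_mul_inv, div_le_iff₀ (Real.exp_pos _)] at h10
  refine h10.trans (le_of_eq ?_)
  ring

/-- the bound for the inverse -/
lemma inv_bound (ha : 0 < a) (w : ℂ) : ∃ C : ℝ, 0 ≤ C ∧ ∀ k : Ts a, ‖toL a k‖ ≤ C * ‖toL a (Ao a w k)‖ := by
  set K : ℝ := Real.exp (|w.re| * a) * (Real.sqrt (2 * a) * Real.exp (|w.re| * a)) with hK
  have hK0 : 0 ≤ K := by positivity
  refine ⟨Real.sqrt (2 * a) * K, by positivity, fun k => ?_⟩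
  have h1 : ‖toL a k‖ ^ 2 ≤ (Real.sqrt (2 * a) * K * ‖toL a (Ao a w k)‖) ^ 2 := by
    rw [norm_toL, mul_pow, mul_pow, Real.sq_sqrt (by positivity)]
    have e1 : ∫ x, ‖(k : ℝ → ℂ) x‖ ^ 2 = ∫ x in Icc (-a) a, ‖(k : ℝ → ℂ) x‖ ^ 2 := by
      rw [setIntegral_eq_integral_of_forall_compl_eq_zero]
      intro x hx
      rw [k.2.2 x]
      · simp
      · by_contra hlt
        push Not at hlt
        exact hx ⟨(abs_le.mp hlt).1, (abs_le.mp hlt).2⟩
    rw [e1]
    have e2 := norm_setIntegral_le_of_norm_le_const (μ := volume) (s := Icc (-a) a)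
      (f := fun x : ℝ => ‖(k : ℝ → ℂ) x‖ ^ 2) (C := (K * ‖toL a (Ao a w k)‖) ^ 2) (by simp) (fun x _ => by
        rw [Real.norm_of_nonneg (by positivity)]
        exact pow_le_pow_left₀ (norm_nonneg _) (point_bound ha w k x) 2)
    have e4 : (volume : Measure ℝ).real (Icc (-a) a) = 2 * a := by
      rw [Real.volume_real_Icc_of_le (by linarith)]
      ring
    rw [e4] at e2
    refine (le_abs_self _).trans (e2.trans (le_of_eq ?_))
    ring
  exact (pow_le_pow_iff_left₀ (norm_nonneg _) (by positivity) (by norm_num)).mp h1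

/-- division by `z - w` -/
lemma exists_div (ha : 0 < a) {w : ℂ} (f : Ts a) (h0 : LT f w = 0) : ∃ k : Ts a, Ao a w k = f := by
  have hf := Ts.tf f.2
  set J : ℝ → ℂ := fun x => ∫ y in (-a)..x, (f : ℝ → ℂ) y * cexp (w * y) with hJ
  have hc : Continuous (fun y : ℝ => (f : ℝ → ℂ) y * cexp (w * y)) := hf.cont.mul (by fun_prop)
  have hJd : ∀ x, HasDerivAt J ((f : ℝ → ℂ) x * cexp (w * x)) x := fun x =>
    intervalIntegral.integral_hasDerivAt_right (hc.intervalIntegrable _ _)
      hc.aestronglyMeasurable.stronglyMeasurableAtFilter hc.continuousAt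
  have hJs : ContDiff ℝ ∞ J := by
    rw [contDiff_infty_iff_deriv]
    refine ⟨fun x => (hJd x).differentiableAt, ?_⟩
    have : deriv J = fun x : ℝ => (f : ℝ → ℂ) x * cexp (w * x) := by
      funext x
      exact (hJd x).deriv
    rw [this]
    have h2 : ContDiff ℝ ∞ (fun x : ℝ => cexp (w * x)) :=
      (contDiff_const.mul Complex.ofRealCLM.contDiff).cexp
    exact f.2.1.mul h2
  have hz : ∀ y : ℝ, a ≤ |y| → (f : ℝ → ℂ) y * cexp (w * y) = 0 := fun y hy => by
    rw [Ts.zero_of_le ha f.2 hy, zero_mul]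
  have hJl : ∀ x, x ≤ -a → J x = 0 := by
    intro x hx
    simp only [hJ]
    rw [intervalIntegral.integral_symm, neg_eq_zero]
    rw [intervalIntegral.integral_of_le hx]
    apply setIntegral_eq_zero_of_forall_eq_zero
    intro y hy
    exact hz y (by rw [abs_of_neg (by linarith [hy.2])]; linarith [hy.2])
  have hJr : ∀ x, a ≤ x → J x = 0 := by
    intro x hx
    have e1 : J x = LT f w := by
      simp only [hJ]
      rw [intervalIntegral.integral_of_le (by linarith)]
      unfold LT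
      rw [setIntegral_eq_integral_of_forall_compl_eq_zero]
      intro y hy
      apply hz
      by_contra hlt
      push Not at hlt
      have := abs_lt.mp hlt
      exact hy ⟨this.1, by linarith [this.2]⟩
    rw [e1, h0]
  have hks : ContDiff ℝ ∞ (fun x : ℝ => -(cexp (-w * x) * J x)) := by
    have h2 : ContDiff ℝ ∞ (fun x : ℝ => cexp (-w * x)) :=
      (contDiff_const.mul Complex.ofRealCLM.contDiff).cexp
    exact (h2.mul hJs).neg
  have hkm : (fun x : ℝ => -(cexp (-w * x) * J x)) ∈ Ts a := by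
    refine ⟨hks, fun x hx => ?_⟩
    rcases lt_abs.mp hx with h | h
    · simp only [hJr x h.le, mul_zero, neg_zero]
    · simp only [hJl x (by linarith), mul_zero, neg_zero]
  refine ⟨⟨_, hkm⟩, ?_⟩
  apply Subtype.ext
  funext x
  show -(deriv (fun x : ℝ => -(cexp (-w * x) * J x)) x + w * (-(cexp (-w * x) * J x))) = (f : ℝ → ℂ) x
  have h3 : HasDerivAt (fun x : ℝ => -(cexp (-w * x) * J x))
      (-((-w * cexp (-w * x)) * J x + cexp (-w * x) * ((f : ℝ → ℂ) x * cexp (w * x)))) x :=
    ((hasDerivAt_exp (-w) x).mul (hJd x)).neg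
  rw [h3.deriv]
  have h4 : cexp (-w * x) * cexp (w * x) = 1 := by
    rw [← Complex.exp_add]
    simp
  linear_combination ((f : ℝ → ℂ) x) * h4

end Pool.Agent.Helper61.W.GS
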