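import Pool.Agent.Helper61.GS.St

set_option autoImplicit false

/-!
# Ground states under the Riemann hypothesis
-/

namespace Pool.Agent.Helper61.W.GS

open Complex Filter Topology Set MeasureTheory
open scoped ComplexConjugate ContDiff
open Pool.Agent.V11271.LI (Zr mm cfg_zeta zz mm_one_le)

variable {a : ℝ}

/-- the zeros are locally finite -/
lemma gap (s : ℂ) : ∃ δ : ℝ, 0 < δ ∧ ∀ ρ : Zr, zz ρ ≠ s → δ ≤ ‖zz ρ - s‖ := by
  have hs := (cfg_zeta.sum 2 (by norm_num)).tendsto_cofinite_zero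
  have h1 : ∀ᶠ ρ in cofinite, mm ρ / (1 + |(zz ρ).im|) ^ (2 : ℝ) < 1 / (2 + |s.im|) ^ (2 : ℝ) :=
    hs.eventually_lt_const (by positivity)
  have hF : {ρ : Zr | ‖zz ρ - s‖ < 1}.Finite := by
    refine Set.Finite.subset h1 fun ρ hρ => ?_
    simp only [mem_ofPred_eq, mem_compl_iff, not_lt] at hρ ⊢
    have e1 := (Complex.abs_im_le_norm (zz ρ - s)).trans hρ.le
    rw [Complex.sub_im] at e1
    have e2 : |(zz ρ).im| ≤ 1 + |s.im| := by
      have := abs_add_le ((zz ρ).im - s.im) s.im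
      rw [sub_add_cancel] at this
      linarith
    have e3 : (1 + |(zz ρ).im|) ^ (2 : ℝ) ≤ (2 + |s.im|) ^ (2 : ℝ) :=
      Real.rpow_le_rpow (by positivity) (by linarith) (by norm_num)
    exact div_le_div₀ (by linarith [mm_one_le ρ]) (mm_one_le ρ) (by positivity) e3
  have hG : (zz '' ({ρ : Zr | ‖zz ρ - s‖ < 1} ∩ {ρ | zz ρ ≠ s})).Finite := (hF.inter_of_left _).image _
  have hs' : s ∈ (zz '' ({ρ : Zr | ‖zz ρ - s‖ < 1} ∩ {ρ | zz ρ ≠ s}))ᶜ := by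
    rintro ⟨ρ, ⟨_, h2⟩, h3⟩
    exact h2 h3
  obtain ⟨ε, hε, hball⟩ := Metric.isOpen_iff.mp hG.isClosed.isOpen_compl s hs'
  refine ⟨min ε 1, by positivity, fun ρ hρ => ?_⟩
  by_contra hlt
  push Not at hlt
  have h2 : ‖zz ρ - s‖ < 1 := hlt.trans_le (min_le_right _ _)
  have h3 : zz ρ ∈ Metric.ball s ε := by
    rw [Metric.mem_ball, dist_eq_norm]
    exact hlt.trans_le (min_le_left _ _)
  exact hball h3 ⟨ρ, ⟨h2, hρ⟩, rfl⟩

/-- rescaled test functions -/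
noncomputable def gs (η : ℝ → ℂ) (R : ℝ) (s : ℂ) (x : ℝ) : ℂ := (R : ℂ)⁻¹ * (η (x / R) * cexp (-s * x))

lemma gs_mem {η : ℝ → ℂ} (hη : η ∈ Ts 1) {R : ℝ} (hR : 0 < R) (s : ℂ) : gs η R s ∈ Ts R := by
  refine ⟨?_, fun x hx => ?_⟩
  · unfold gs
    refine contDiff_const.mul ((hη.1.comp (contDiff_id.div_const R)).mul ?_)
    exact (contDiff_const.mul Complex.ofRealCLM.contDiff).cexp
  · unfold gs
    have : 1 < |x / R| := by
      rw [abs_div, abs_of_pos hR, one_lt_div hR]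
      exact hx
    rw [hη.2 _ this]
    simp

lemma LT_gs {η : ℝ → ℂ} {R : ℝ} (hR : 0 < R) (s z : ℂ) : LT (gs η R s) z = LT η (R * (z - s)) := by
  have hRc : (R : ℂ) ≠ 0 := by exact_mod_cast hR.ne'
  have e1 : LT (gs η R s) z = ∫ x : ℝ, (fun y : ℝ => (R : ℂ)⁻¹ * (η y * cexp (R * (z - s) * y))) (x / R) := by
    unfold LT gs
    congr 1
    funext x
    have : cexp ((R : ℂ) * (z - s) * ((x / R : ℝ) : ℂ)) = cexp (-s * x) * cexp (z * x) := by
      rw [← Complex.exp_add]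
      congr 1
      push_cast
      field_simp
      ring
    simp only
    rw [this]
    ring
  rw [e1]
  refine (Measure.integral_comp_div (fun y : ℝ => (R : ℂ)⁻¹ * (η y * cexp (R * (z - s) * y))) R).trans ?_
  rw [integral_const_mul, abs_of_pos hR]
  unfold LT
  rw [Complex.real_smul, ← mul_assoc, mul_inv_cancel₀ hRc, one_mul]

lemma norm_gs {η : ℝ → ℂ} {R : ℝ} (hR : 0 < R) {s : ℂ} (hs : s.re = 0) :
    ∫ x, ‖gs η R s x‖ ^ 2 = R⁻¹ * ∫ x, ‖η x‖ ^ 2 := by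
  have e1 : ∀ x, ‖gs η R s x‖ ^ 2 = (fun y => R⁻¹ ^ 2 * ‖η y‖ ^ 2) (x / R) := by
    intro x
    unfold gs
    rw [norm_mul, norm_mul, norm_inv, Complex.norm_real, Real.norm_of_nonneg hR.le, Complex.norm_exp]
    have : (-s * x).re = 0 := by simp [hs]
    rw [this, Real.exp_zero, mul_one, mul_pow]
  rw [integral_congr_ae (Eventually.of_forall e1)]
  refine (Measure.integral_comp_div (fun y : ℝ => R⁻¹ ^ 2 * ‖η y‖ ^ 2) R).trans ?_
  rw [integral_const_mul, abs_of_pos hR, smul_eq_mul]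
  field_simp

section RH

variable (hR : ∀ ρ : Zr, (zz ρ).re = 0)

include hR

lemma rh_conj (ρ : Zr) : -conj (zz ρ) = zz ρ := by
  apply Complex.ext
  · simp [hR ρ]
  · simp

lemma wt_self (g : ℝ → ℂ) (ρ : Zr) : wt g g ρ = ((mm ρ * ‖LT g (zz ρ)‖ ^ 2 : ℝ) : ℂ) := by
  unfold wt
  rw [rh_conj hR, Complex.mul_conj, Complex.normSq_eq_norm_sq]
  push_cast
  rfl

lemma Wf_self_eq (g : ℝ → ℂ) : Wf g g = ((∑' ρ : Zr, mm ρ * ‖LT g (zz ρ)‖ ^ 2 : ℝ) : ℂ) := by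
  unfold Wf
  rw [Complex.ofReal_tsum]
  exact tsum_congr fun ρ => wt_self hR g ρ

lemma Wf_nonneg (g : ℝ → ℂ) : 0 ≤ (Wf g g).re := by
  rw [Wf_self_eq hR, Complex.ofReal_re]
  exact tsum_nonneg fun ρ => mul_nonneg (cfg_zeta.m_nonneg ρ) (sq_nonneg _)

lemma low_nonneg (ha : 0 < a) : 0 ≤ low a := by
  apply le_csInf (low_nonempty ha)
  rintro r ⟨g, _, _, rfl⟩
  exact Wf_nonneg hR g

lemma wt_Aw {g : ℝ → ℂ} (hg : TF g) {w : ℂ} (hw : w.re = 0) (ρ : Zr) :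
    wt g (Aw w g) ρ = -I * ((mm ρ * ((zz ρ).im - w.im) * ‖LT g (zz ρ)‖ ^ 2 : ℝ) : ℂ) := by
  unfold wt
  rw [rh_conj hR, LT_Aw hg, map_mul]
  have e1 : zz ρ - w = (((zz ρ).im - w.im : ℝ) : ℂ) * I := by
    apply Complex.ext
    · simp [hR ρ, hw]
    · simp
  rw [e1, map_mul, Complex.conj_ofReal, Complex.conj_I]
  have e2 : LT g (zz ρ) * conj (LT g (zz ρ)) = ((‖LT g (zz ρ)‖ ^ 2 : ℝ) : ℂ) := by
    rw [Complex.mul_conj, Complex.normSq_eq_norm_sq]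
  push_cast at e2 ⊢
  linear_combination (-I * (mm ρ : ℂ) * ((zz ρ).im - w.im : ℂ)) * e2

lemma Wf_Aw {g : ℝ → ℂ} (hg : TF g) {w : ℂ} (hw : w.re = 0) :
    ‖Wf g (Aw w g)‖ = |∑' ρ : Zr, mm ρ * ((zz ρ).im - w.im) * ‖LT g (zz ρ)‖ ^ 2| := by
  have : Wf g (Aw w g) = -I * ((∑' ρ : Zr, mm ρ * ((zz ρ).im - w.im) * ‖LT g (zz ρ)‖ ^ 2 : ℝ) : ℂ) := by
    unfold Wf
    rw [Complex.ofReal_tsum, ← tsum_mul_left]
    exact tsum_congr fun ρ => wt_Aw hR hg hw ρ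
  rw [this, norm_mul, norm_neg, Complex.norm_I, one_mul, Complex.norm_real, Real.norm_eq_abs]

lemma Wf_Aw2 {g : ℝ → ℂ} (hg : TF g) {w : ℂ} (hw : w.re = 0) :
    (Wf (Aw w g) (Aw w g)).re = ∑' ρ : Zr, mm ρ * ((zz ρ).im - w.im) ^ 2 * ‖LT g (zz ρ)‖ ^ 2 := by
  rw [Wf_self_eq hR, Complex.ofReal_re]
  refine tsum_congr fun ρ => ?_
  have e1 : zz ρ - w = (((zz ρ).im - w.im : ℝ) : ℂ) * I := by
    apply Complex.ext
    · simp [hR ρ, hw]
    · simp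
  rw [LT_Aw hg, e1, norm_mul, norm_mul, Complex.norm_I, mul_one, Complex.norm_real, mul_pow, Real.norm_eq_abs,
    sq_abs]
  ring

/-- the lowest eigenvalue tends to zero -/
lemma low_upper : ∃ K : ℝ, ∀ a : ℝ, 0 < a → low a ≤ K / a := by
  obtain ⟨η, hη⟩ := exists_eta one_pos 0
  obtain ⟨C, hC, hb⟩ := LT_bound (Ts.tf η.2) 0
  obtain ⟨δ, hδ, hgap⟩ := gap 0
  set N : ℝ := ∫ x, ‖(η : ℝ → ℂ) x‖ ^ 2 with hN
  have hNpos : 0 < N := by
    rw [hN, ← norm_toL]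
    have : toL 1 η ≠ 0 := by
      intro h
      have h1 := ev_toL η 0
      rw [h, map_zero, hη] at h1
      exact zero_ne_one h1
    have := norm_pos_iff.mpr this
    positivity
  set S : ℝ := ∑' ρ : Zr, mm ρ / (1 + |(zz ρ).im|) ^ (2 : ℝ) with hS
  have hs := cfg_zeta.sum 2 (by norm_num)
  refine ⟨C ^ 2 * ((1 + δ) / δ) ^ 2 * S / N, fun a ha => ?_⟩
  have h1 := low_le ha (⟨gs η a 0, gs_mem η.2 ha 0⟩ : Ts a)
  rw [norm_toL] at h1
  simp only at h1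
  rw [norm_gs ha (by simp), Wf_self_eq hR, Complex.ofReal_re] at h1
  have h2 : ∀ ρ : Zr, mm ρ * ‖LT (gs η a 0) (zz ρ)‖ ^ 2 ≤
      C ^ 2 * ((1 + δ) / δ) ^ 2 / a ^ 2 * (mm ρ / (1 + |(zz ρ).im|) ^ (2 : ℝ)) := by
    intro ρ
    rw [LT_gs ha, sub_zero]
    have e1 : ((a : ℂ) * zz ρ).re = 0 := by simp [hR ρ]
    have e2 : ((a : ℂ) * zz ρ).im = a * (zz ρ).im := by simp
    have h3 := hb ((a : ℂ) * zz ρ) (by rw [e1, abs_zero])
    rw [e2] at h3
    set t : ℝ := (zz ρ).im with ht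
    have h4 : δ ≤ |t| := by
      have hne : zz ρ ≠ 0 := by
        intro h
        have h5 := congrArg Complex.im h
        have h6 := V11271.LI.zz_im ρ
        rw [h6] at h5
        exact ρ.im_ne h5
      have h5 := hgap ρ hne
      rw [sub_zero] at h5
      have h6 : zz ρ = (t : ℂ) * I := by
        apply Complex.ext
        · simp [hR ρ]
        · simp [ht]
      rw [h6, norm_mul, Complex.norm_I, mul_one, Complex.norm_real, Real.norm_eq_abs] at h5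
      exact h5
    have h5 : (1 + |t|) ^ (2 : ℝ) = (1 + |t|) ^ 2 := by norm_cast
    rw [h5]
    have h6 : 1 + |t| ≤ (1 + δ) / δ * |t| := by
      rw [div_mul_eq_mul_div, le_div_iff₀ hδ]
      nlinarith
    have h7 : (1 + |t|) ^ 2 ≤ ((1 + δ) / δ) ^ 2 * t ^ 2 := by
      rw [← sq_abs t, ← mul_pow]
      exact pow_le_pow_left₀ (by positivity) h6 2
    have h8 : ‖LT η ((a : ℂ) * zz ρ)‖ ^ 2 ≤ C ^ 2 / (a ^ 2 * t ^ 2) := by
      have hap : 0 < a ^ 2 * t ^ 2 := by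
        have : 0 < |t| := hδ.trans_le h4
        have := sq_pos_of_pos this
        rw [sq_abs] at this
        positivity
      have h9 : ‖LT η ((a : ℂ) * zz ρ)‖ ^ 2 ≤ (C / (1 + (a * t) ^ 2) ^ 2) ^ 2 :=
        pow_le_pow_left₀ (norm_nonneg _) h3 2
      refine h9.trans ?_
      rw [div_pow]
      apply div_le_div_of_nonneg_left (sq_nonneg _) hap
      have h10 : 1 ≤ 1 + (a * t) ^ 2 := by nlinarith [sq_nonneg (a * t)]
      calc a ^ 2 * t ^ 2 ≤ 1 + (a * t) ^ 2 := by nlinarith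
        _ ≤ (1 + (a * t) ^ 2) ^ 4 := le_self_pow₀ h10 (by norm_num)
        _ = ((1 + (a * t) ^ 2) ^ 2) ^ 2 := by ring
    have hm := cfg_zeta.m_nonneg ρ
    have htp : 0 < t ^ 2 := by
      have : 0 < |t| := hδ.trans_le h4
      have := sq_pos_of_pos this
      rwa [sq_abs] at this
    calc mm ρ * ‖LT η ((a : ℂ) * zz ρ)‖ ^ 2 ≤ mm ρ * (C ^ 2 / (a ^ 2 * t ^ 2)) :=
          mul_le_mul_of_nonneg_left h8 hm
      _ = C ^ 2 / a ^ 2 * mm ρ * (1 / t ^ 2) := by field_simp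
      _ ≤ C ^ 2 / a ^ 2 * mm ρ * (((1 + δ) / δ) ^ 2 / (1 + |t|) ^ 2) := by
          apply mul_le_mul_of_nonneg_left _ (by positivity)
          rw [div_le_div_iff₀ htp (by positivity)]
          linarith
      _ = _ := by ring
  have hsum : Summable fun ρ : Zr => mm ρ * ‖LT (gs η a 0) (zz ρ)‖ ^ 2 :=
    Summable.of_nonneg_of_le (fun ρ => mul_nonneg (cfg_zeta.m_nonneg ρ) (sq_nonneg _)) h2 (hs.mul_left _)
  have h3 := hsum.tsum_le_tsum h2 (hs.mul_left _)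
  rw [tsum_mul_left] at h3
  have h4 := h1.trans h3
  rw [div_div, le_div_iff₀ (by positivity)]
  have h5 : low a * (N * a) = (low a * (a⁻¹ * N)) * a ^ 2 := by
    field_simp
  rw [h5]
  calc (low a * (a⁻¹ * N)) * a ^ 2 ≤ (C ^ 2 * ((1 + δ) / δ) ^ 2 / a ^ 2 * S) * a ^ 2 :=
        mul_le_mul_of_nonneg_right h4 (sq_nonneg a)
    _ = _ := by field_simp

lemma low_tendsto : Tendsto low atTop (𝓝 0) := by
  obtain ⟨K, hK⟩ := low_upper hR
  have h1 : Tendsto (fun a : ℝ => K / a) atTop (𝓝 0) := tendsto_const_nhds.div_atTop tendsto_id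
  refine squeeze_zero' ?_ ?_ h1
  · filter_upwards [eventually_gt_atTop 0] with a ha
    exact low_nonneg hR ha
  · filter_upwards [eventually_gt_atTop 0] with a ha
    exact hK a ha

/-- the two sums for rescaled test functions -/
lemma no_ineq (ρ0 : Zr) {δ ε : ℝ} (hδ : 0 < δ) (hε : 2 * δ < ε)
    (h : ∀ b : ℝ, 0 < b → ∀ g ∈ Ts b, ‖Wf g (Aw (zz ρ0 + δ * I) g)‖ ≤
      2 / ε * (Wf (Aw (zz ρ0 + δ * I) g) (Aw (zz ρ0 + δ * I) g)).re) : False := by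
  obtain ⟨η, hη⟩ := exists_eta one_pos 0
  obtain ⟨C, hC, hb⟩ := LT_bound (Ts.tf η.2) 0
  set w0 : ℂ := zz ρ0 + δ * I with hw0
  have hw0re : w0.re = 0 := by simp [hw0, hR ρ0]
  have hw0im : w0.im = (zz ρ0).im + δ := by simp [hw0]
  set t0 : ℝ := (zz ρ0).im with ht0
  -- the density
  set D : ℕ → Zr → ℝ := fun n ρ => ‖LT η (((n : ℝ) + 1 : ℝ) * (zz ρ - zz ρ0))‖ ^ 2 with hD
  have hD0 : ∀ n, D n ρ0 = 1 := by
    intro n
    simp only [hD, sub_self, mul_zero, hη]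
    norm_num
  have hdiff : ∀ ρ : Zr, zz ρ - zz ρ0 = (((zz ρ).im - t0 : ℝ) : ℂ) * I := by
    intro ρ
    apply Complex.ext
    · simp [hR ρ, hR ρ0]
    · simp [ht0]
  have hDb : ∀ n ρ, D n ρ ≤ C ^ 2 / (1 + (((n : ℝ) + 1) * ((zz ρ).im - t0)) ^ 2) ^ 2 := by
    intro n ρ
    have e1 : (((n : ℝ) + 1 : ℝ) * (zz ρ - zz ρ0) : ℂ).re = 0 := by
      rw [hdiff]
      simp
    have e2 : (((n : ℝ) + 1 : ℝ) * (zz ρ - zz ρ0) : ℂ).im = ((n : ℝ) + 1) * ((zz ρ).im - t0) := by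
      rw [hdiff]
      simp
    have h3 := hb _ (by rw [e1, abs_zero])
    rw [e2] at h3
    have h4 := pow_le_pow_left₀ (norm_nonneg _) h3 2
    refine h4.trans ?_
    rw [div_pow]
    apply div_le_div_of_nonneg_left (sq_nonneg _) (by positivity)
    have h5 : 1 ≤ (1 + (((n : ℝ) + 1) * ((zz ρ).im - t0)) ^ 2) ^ 2 :=
      one_le_pow₀ (by nlinarith [sq_nonneg (((n : ℝ) + 1) * ((zz ρ).im - t0))])
    exact le_self_pow₀ h5 (by norm_num)
  -- domination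
  set K : ℝ := (3 + 2 * δ ^ 2) * C ^ 2 * (2 * (1 + |t0|) ^ 2) with hK
  have hK0 : 0 ≤ K := by positivity
  have hdom : ∀ n ρ, D n ρ * (3 + 2 * δ ^ 2) * (1 + ((zz ρ).im - t0) ^ 2) ≤ K / (1 + |(zz ρ).im|) ^ (2 : ℝ) := by
    intro n ρ
    set u : ℝ := (zz ρ).im - t0 with hu
    have h5 : (1 + |(zz ρ).im|) ^ (2 : ℝ) = (1 + |(zz ρ).im|) ^ 2 := by norm_cast
    rw [h5, le_div_iff₀ (by positivity)]
    have h6 : 1 + |(zz ρ).im| ≤ (1 + |t0|) * (1 + |u|) := by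
      have : |(zz ρ).im| ≤ |u| + |t0| := by
        have := abs_add_le u t0
        rwa [hu, sub_add_cancel] at this
      nlinarith [abs_nonneg u, abs_nonneg t0]
    have h7 : (1 + |(zz ρ).im|) ^ 2 ≤ (2 * (1 + |t0|) ^ 2) * (1 + u ^ 2) := by
      have h8 := pow_le_pow_left₀ (by positivity) h6 2
      rw [mul_pow] at h8
      have h9 : (1 + |u|) ^ 2 ≤ 2 * (1 + u ^ 2) := by
        have := sq_nonneg (1 - |u|)
        have h10 := sq_abs u
        nlinarith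
      calc (1 + |(zz ρ).im|) ^ 2 ≤ (1 + |t0|) ^ 2 * (1 + |u|) ^ 2 := h8
        _ ≤ (1 + |t0|) ^ 2 * (2 * (1 + u ^ 2)) := mul_le_mul_of_nonneg_left h9 (sq_nonneg _)
        _ = _ := by ring
    have h8 : D n ρ * (1 + u ^ 2) ^ 2 ≤ C ^ 2 := by
      have h9 := hDb n ρ
      rw [le_div_iff₀ (by positivity)] at h9
      refine le_trans (mul_le_mul_of_nonneg_left ?_ (sq_nonneg _)) h9
      apply pow_le_pow_left₀ (by positivity)
      have hn1 : (1 : ℝ) ≤ (n : ℝ) + 1 := by linarith [(Nat.cast_nonneg n : (0 : ℝ) ≤ n)]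
      have h10 : u ^ 2 ≤ (((n : ℝ) + 1) * u) ^ 2 := by
        rw [mul_pow]
        have : 1 ≤ ((n : ℝ) + 1) ^ 2 := one_le_pow₀ hn1
        nlinarith [sq_nonneg u]
      linarith
    have hDn : 0 ≤ D n ρ := sq_nonneg _
    calc D n ρ * (3 + 2 * δ ^ 2) * (1 + u ^ 2) * (1 + |(zz ρ).im|) ^ 2
        ≤ D n ρ * (3 + 2 * δ ^ 2) * (1 + u ^ 2) * ((2 * (1 + |t0|) ^ 2) * (1 + u ^ 2)) :=
          mul_le_mul_of_nonneg_left h7 (by positivity)
      _ = (D n ρ * (1 + u ^ 2) ^ 2) * ((3 + 2 * δ ^ 2) * (2 * (1 + |t0|) ^ 2)) := by ring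
      _ ≤ C ^ 2 * ((3 + 2 * δ ^ 2) * (2 * (1 + |t0|) ^ 2)) := mul_le_mul_of_nonneg_right h8 (by positivity)
      _ = K := by rw [hK]; ring
  -- pointwise limits
  have hlim : ∀ ρ, ρ ≠ ρ0 → Tendsto (fun n => D n ρ) atTop (𝓝 0) := by
    intro ρ hρ
    have hu : (zz ρ).im - t0 ≠ 0 := by
      intro h0
      apply hρ
      have h1 := hdiff ρ
      rw [h0, Complex.ofReal_zero, zero_mul] at h1
      have h2 := sub_eq_zero.mp h1
      unfold zz at h2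
      apply Subtype.ext
      exact sub_left_injective h2
    set u : ℝ := (zz ρ).im - t0 with hudef
    have h2 : Tendsto (fun n : ℕ => C ^ 2 / (((n : ℝ) + 1) * u ^ 2)) atTop (𝓝 0) := by
      apply tendsto_const_nhds.div_atTop
      apply Tendsto.atTop_mul_const (by positivity)
      exact tendsto_natCast_atTop_atTop.atTop_add tendsto_const_nhds
    refine squeeze_zero (fun n => sq_nonneg _) (fun n => (hDb n ρ).trans ?_) h2
    apply div_le_div_of_nonneg_left (sq_nonneg _) (by positivity)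
    have hn1 : (1 : ℝ) ≤ (n : ℝ) + 1 := by linarith [(Nat.cast_nonneg n : (0 : ℝ) ≤ n)]
    have h3 : 1 ≤ 1 + (((n : ℝ) + 1) * u) ^ 2 := by nlinarith [sq_nonneg (((n : ℝ) + 1) * u)]
    calc ((n : ℝ) + 1) * u ^ 2 ≤ ((n : ℝ) + 1) ^ 2 * u ^ 2 :=
          mul_le_mul_of_nonneg_right (by nlinarith) (sq_nonneg u)
      _ ≤ 1 + (((n : ℝ) + 1) * u) ^ 2 := by rw [mul_pow]; linarith
      _ ≤ (1 + (((n : ℝ) + 1) * u) ^ 2) ^ 2 := le_self_pow₀ h3 (by norm_num)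
  have hs := (cfg_zeta.sum 2 (by norm_num)).mul_left K
  have hbound : ∀ (c : ℝ → ℝ), (∀ x, |c x| ≤ (3 + 2 * δ ^ 2) * (1 + (x - t0) ^ 2)) →
      Tendsto (fun n => ∑' ρ : Zr, mm ρ * c (zz ρ).im * D n ρ) atTop
        (𝓝 (∑' ρ : Zr, if ρ = ρ0 then mm ρ0 * c t0 else 0)) := by
    intro c hc
    apply tendsto_tsum_of_dominated_convergence hs
    · intro ρ
      by_cases hρ : ρ = ρ0
      · rw [if_pos hρ, hρ]
        simp only [hD0, mul_one]
        exact tendsto_const_nhds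
      · rw [if_neg hρ]
        have := (hlim ρ hρ).const_mul (mm ρ * c (zz ρ).im)
        rwa [mul_zero] at this
    · refine Eventually.of_forall fun n ρ => ?_
      have hm := cfg_zeta.m_nonneg ρ
      have hDn : 0 ≤ D n ρ := sq_nonneg _
      rw [Real.norm_eq_abs, abs_mul, abs_mul, abs_of_nonneg hm, abs_of_nonneg hDn]
      calc mm ρ * |c (zz ρ).im| * D n ρ ≤ mm ρ * ((3 + 2 * δ ^ 2) * (1 + ((zz ρ).im - t0) ^ 2)) * D n ρ :=
            mul_le_mul_of_nonneg_right (mul_le_mul_of_nonneg_left (hc _) hm) hDn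
        _ = mm ρ * (D n ρ * (3 + 2 * δ ^ 2) * (1 + ((zz ρ).im - t0) ^ 2)) := by ring
        _ ≤ mm ρ * (K / (1 + |(zz ρ).im|) ^ (2 : ℝ)) := mul_le_mul_of_nonneg_left (hdom n ρ) hm
        _ = _ := by ring
  have hA := hbound (fun x => x - w0.im) (fun x => by
    rw [hw0im]
    have h1 : |x - (t0 + δ)| ≤ |x - t0| + δ := by
      have := abs_sub (x - t0) δ
      rw [abs_of_pos hδ] at this
      have e : x - (t0 + δ) = x - t0 - δ := by ring
      rwa [e]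
    have h2 := sq_abs (x - t0)
    have h3 := sq_nonneg (|x - t0| - 1)
    have h4 := sq_nonneg (δ - 1)
    nlinarith [sq_nonneg (x - t0), sq_nonneg δ])
  have hB := hbound (fun x => (x - w0.im) ^ 2) (fun x => by
    rw [hw0im, abs_of_nonneg (sq_nonneg _)]
    nlinarith [sq_nonneg (x - t0), sq_nonneg δ, sq_nonneg (x - t0 + δ), sq_nonneg ((x - t0) * δ)])
  rw [tsum_ite_eq] at hA hB
  have hineq : ∀ n : ℕ, |∑' ρ : Zr, mm ρ * ((zz ρ).im - w0.im) * D n ρ| ≤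
      2 / ε * ∑' ρ : Zr, mm ρ * ((zz ρ).im - w0.im) ^ 2 * D n ρ := by
    intro n
    have hn : (0 : ℝ) < (n : ℝ) + 1 := by positivity
    have hmem := gs_mem η.2 hn (zz ρ0)
    have h1 := h _ hn _ hmem
    rw [Wf_Aw hR (Ts.tf hmem) hw0re, Wf_Aw2 hR (Ts.tf hmem) hw0re] at h1
    simp only [LT_gs hn] at h1
    exact h1
  have hfin := le_of_tendsto_of_tendsto' hA.abs (hB.const_mul (2 / ε)) hineq
  have hm := mm_one_le ρ0
  rw [hw0im] at hfin
  have e1 : t0 - (t0 + δ) = -δ := by ring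
  rw [e1, abs_mul, abs_neg, abs_of_pos hδ, abs_of_nonneg (by linarith : 0 ≤ mm ρ0), neg_sq] at hfin
  have hεp : 0 < ε := by linarith
  rw [div_mul_eq_mul_div, le_div_iff₀ hεp] at hfin
  nlinarith [mul_pos (by linarith : 0 < mm ρ0) hδ]

/-- under the Riemann hypothesis the zeros of ground states approach every zero of zeta -/
theorem zeros_near (ρ0 : Zr) {ε0 : ℝ} (hε0 : 0 < ε0) : ∃ A : ℝ, ∀ a : ℝ, A ≤ a → ∀ (ha : 0 < a), ∀ φ ∈ E ha,
    ∃ z : ℂ, ‖z - zz ρ0‖ < ε0 ∧ ev a z φ = 0 := by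
  by_contra hcon
  push Not at hcon
  refine no_ineq hR ρ0 (δ := ε0 / 8) (ε := ε0 / 2) (by positivity) (by linarith) fun b hb g hg => ?_
  set w0 : ℂ := zz ρ0 + (ε0 / 8 : ℝ) * I with hw0
  have hw0re : w0.re = 0 := by simp [hw0, hR ρ0]
  set f : ℝ → ℂ := Aw w0 g with hf
  have hfm : f ∈ Ts b := Aw_mem w0 hg
  by_contra hlt
  push Not at hlt
  set M : ℝ := ‖toL b ⟨f, hfm⟩‖ * ‖toL b ⟨g, hg⟩‖ with hM
  have hM0 : 0 ≤ M := by positivity
  have hl : Tendsto (fun a => low a * M) atTop (𝓝 0) := by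
    have := (low_tendsto hR).mul_const M
    rwa [zero_mul] at this
  have hev := hl.eventually_lt_const (sub_pos.mpr hlt)
  obtain ⟨A0, hA0⟩ := eventually_atTop.mp hev
  obtain ⟨a, haA, ha, φ, hφ, hnz⟩ := hcon (max A0 b)
  have hab : b ≤ a := (le_max_right _ _).trans haA
  have h1 := hA0 a ((le_max_left _ _).trans haA)
  set gA : Ts a := ⟨g, Ts.mono hab hg⟩ with hgA
  have hball : ∀ z ∈ Metric.closedBall w0 (ε0 / 2), ev a z φ ≠ 0 := by
    intro z hz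
    apply hnz
    rw [Metric.mem_closedBall, dist_eq_norm] at hz
    have e1 : z - zz ρ0 = (z - w0) + (ε0 / 8 : ℝ) * I := by
      rw [hw0]
      ring
    rw [e1]
    refine (norm_add_le _ _).trans_lt ?_
    rw [norm_mul, Complex.norm_I, mul_one, Complex.norm_real, Real.norm_of_nonneg (by positivity)]
    linarith
  have h2 := star ha hφ hw0re (by positivity : 0 < ε0 / 2) hball gA
  have hfA : (Ao a w0 gA : ℝ → ℂ) = f := rfl
  have hlow := low_nonneg hR ha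
  rw [form_self] at h2
  have e1 : (form ha).B gA (Ao a w0 gA) = Wf g f - (low a : ℂ) * inner ℂ (toL a (Ao a w0 gA)) (toL a gA) := rfl
  have e2 : ‖toL a (Ao a w0 gA)‖ = ‖toL b ⟨f, hfm⟩‖ := by
    have h3 : ‖toL a (Ao a w0 gA)‖ ^ 2 = ‖toL b ⟨f, hfm⟩‖ ^ 2 := by
      rw [norm_toL, norm_toL]
      rfl
    exact (pow_left_inj₀ (norm_nonneg _) (norm_nonneg _) (by norm_num)).mp h3
  have e3 : ‖toL a gA‖ = ‖toL b ⟨g, hg⟩‖ := by
    have h3 : ‖toL a gA‖ ^ 2 = ‖toL b ⟨g, hg⟩‖ ^ 2 := by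
      rw [norm_toL, norm_toL]
    exact (pow_left_inj₀ (norm_nonneg _) (norm_nonneg _) (by norm_num)).mp h3
  have h3 : ‖Wf g f‖ ≤ ‖(form ha).B gA (Ao a w0 gA)‖ + low a * M := by
    rw [e1]
    have h4 : ‖Wf g f‖ ≤ ‖Wf g f - (low a : ℂ) * inner ℂ (toL a (Ao a w0 gA)) (toL a gA)‖ +
        ‖(low a : ℂ) * inner ℂ (toL a (Ao a w0 gA)) (toL a gA)‖ := by
      have := norm_add_le (Wf g f - (low a : ℂ) * inner ℂ (toL a (Ao a w0 gA)) (toL a gA))
        ((low a : ℂ) * inner ℂ (toL a (Ao a w0 gA)) (toL a gA))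
      rwa [sub_add_cancel] at this
    have h5 : ‖(low a : ℂ) * inner ℂ (toL a (Ao a w0 gA)) (toL a gA)‖ ≤ low a * M := by
      rw [norm_mul, Complex.norm_real, Real.norm_of_nonneg hlow, hM, ← e2, ← e3]
      exact mul_le_mul_of_nonneg_left (norm_inner_le_norm _ _) hlow
    linarith
  have h4 : ((Wf (Ao a w0 gA) (Ao a w0 gA)).re - low a * ‖toL a (Ao a w0 gA)‖ ^ 2) ≤ (Wf f f).re := by
    rw [hfA]
    have := mul_nonneg hlow (sq_nonneg ‖toL a (Ao a w0 gA)‖)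
    linarith
  have h5 : 2 / (ε0 / 2) * ((Wf (Ao a w0 gA) (Ao a w0 gA)).re - low a * ‖toL a (Ao a w0 gA)‖ ^ 2) ≤
      2 / (ε0 / 2) * (Wf f f).re := mul_le_mul_of_nonneg_left h4 (by positivity)
  linarith

end RH

end Pool.Agent.Helper61.W.GS
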